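import Pool.Agent.J4H81.DK.Main

/-!
# Project DK: change of the scale by a constant factor
-/

set_option autoImplicit false

namespace Pool.Agent.J4H81.DK

open Finset Filter

theorem f13_mono {L L' : ℝ} (h : Real.exp 13 ≤ L) (hL : L ≤ L') : L / Real.log L ^ 13 ≤ L' / Real.log L' ^ 13 := by
  have h0 : 0 < L := lt_of_lt_of_le (Real.exp_pos _) h
  have h0' : 0 < L' := lt_of_lt_of_le h0 hL
  have hu : 13 ≤ Real.log L := by rwa [Real.le_log_iff_exp_le h0]
  have hu' : 13 ≤ Real.log L' := by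
    rw [Real.le_log_iff_exp_le h0']
    exact h.trans hL
  have h13 : (0 : ℝ) < 1 / 13 := by norm_num
  have e13 : (1 : ℝ) / (1 / 13) = 13 := by norm_num
  have e14 : (((1 : ℝ) / 13))⁻¹ = 13 := by norm_num
  have h1 := Real.log_div_self_rpow_antitoneOn h13 (Set.mem_Ici.2 (by rw [e14]; exact h)) (Set.mem_Ici.2 (by rw [e14]; exact h.trans hL)) hL
  have h2 : ∀ x : ℝ, 0 < x → (x ^ ((1 : ℝ) / 13)) ^ 13 = x := by
    intro x hx
    rw [← Real.rpow_natCast, ← Real.rpow_mul hx.le]
    norm_num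
  have h3 : (Real.log L' / L' ^ ((1 : ℝ) / 13)) ^ 13 ≤ (Real.log L / L ^ ((1 : ℝ) / 13)) ^ 13 := by
    apply pow_le_pow_left₀ _ h1
    positivity
  rw [div_pow, div_pow, h2 L h0, h2 L' h0', div_le_div_iff₀ h0' h0] at h3
  rw [div_le_div_iff₀ (by positivity) (by positivity)]
  linarith

theorem scale (C k : ℕ) (hC : 1 ≤ C) : ∀ᶠ X : ℕ in atTop,
    (X : ℝ) * Real.exp (-(Real.log X / Real.log (Real.log X) ^ 4)) ≤
      2 * (((C * X : ℕ) : ℝ) * Real.exp (-(Real.log (C * X : ℕ) / Real.log (Real.log (C * X : ℕ)) ^ 4))) ∧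
    ((C * X : ℕ) : ℝ) ^ k * Real.exp (-(2 * (Real.log (C * X : ℕ) / Real.log (Real.log (C * X : ℕ)) ^ 13))) ≤
      (X : ℝ) ^ k * Real.exp (-(Real.log X / Real.log (Real.log X) ^ 13)) := by
  have hlog : Tendsto (fun X : ℕ => Real.log (X : ℝ)) atTop atTop := Real.tendsto_log_atTop.comp tendsto_natCast_atTop_atTop
  set c : ℝ := Real.log C with hc
  have hC1 : (1 : ℝ) ≤ C := by exact_mod_cast hC
  have hc0 : 0 ≤ c := Real.log_nonneg hC1
  have hbig : ∀ᶠ L : ℝ in atTop, Real.log L ^ 13 * (k * c + 1) ≤ L := by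
    have h1 : (fun L : ℝ => Real.log L ^ 13) =o[atTop] (fun L : ℝ => L) := by
      exact Real.isLittleO_pow_log_id_atTop (n := 13)
    have h2 := h1.bound (show (0 : ℝ) < 1 / (k * c + 1) by positivity)
    filter_upwards [h2, eventually_ge_atTop (1 : ℝ)] with L hL hL1
    rw [Real.norm_of_nonneg (pow_nonneg (Real.log_nonneg hL1) _), Real.norm_of_nonneg (by linarith), div_mul_eq_mul_div, one_mul,
      le_div_iff₀ (by positivity)] at hL
    exact hL
  filter_upwards [hlog.eventually hbig, hlog.eventually (eventually_ge_atTop (Real.exp 13)), eventually_ge_atTop 1] with X h1 h2 h3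
  have hX0 : (0 : ℝ) < X := by exact_mod_cast h3
  have hC0 : (0 : ℝ) < C := by linarith
  set L : ℝ := Real.log X with hL
  have hL' : Real.log ((C * X : ℕ) : ℝ) = c + L := by
    rw [Nat.cast_mul, Real.log_mul hC0.ne' hX0.ne']
  rw [hL']
  have hL0 : 0 < L := lt_of_lt_of_le (Real.exp_pos _) h2
  have hu : 13 ≤ Real.log L := by rwa [Real.le_log_iff_exp_le hL0]
  have huu : Real.log L ≤ Real.log (c + L) := Real.log_le_log hL0 (by linarith)
  have hCX : ((C * X : ℕ) : ℝ) = C * X := by push_cast; ring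
  have hCe : (C : ℝ) = Real.exp c := by rw [hc, Real.exp_log hC0]
  constructor
  · have h4 : (c + L) / Real.log (c + L) ^ 4 ≤ L / Real.log L ^ 4 + c := by
      have h5 : (c + L) / Real.log (c + L) ^ 4 ≤ (c + L) / Real.log L ^ 4 := by
        apply div_le_div_of_nonneg_left (by linarith) (by positivity)
        exact pow_le_pow_left₀ (by linarith) huu 4
      have h6 : c / Real.log L ^ 4 ≤ c := div_le_self hc0 (one_le_pow₀ (by linarith))
      calc _ ≤ (c + L) / Real.log L ^ 4 := h5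
        _ = c / Real.log L ^ 4 + L / Real.log L ^ 4 := add_div _ _ _
        _ ≤ _ := by linarith
    have h7 : Real.exp (-(L / Real.log L ^ 4)) ≤ C * Real.exp (-((c + L) / Real.log (c + L) ^ 4)) := by
      rw [hCe, ← Real.exp_add]
      apply Real.exp_le_exp.2
      linarith
    rw [hCX]
    have h8 := mul_le_mul_of_nonneg_left h7 hX0.le
    have h9 : 0 ≤ (C : ℝ) * X * Real.exp (-((c + L) / Real.log (c + L) ^ 4)) := by positivity
    nlinarith
  · have h4 : L / Real.log L ^ 13 ≤ (c + L) / Real.log (c + L) ^ 13 := f13_mono h2 (by linarith)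
    have h5 : k * c ≤ L / Real.log L ^ 13 := by
      rw [le_div_iff₀ (by positivity)]
      have : (0 : ℝ) ≤ Real.log L ^ 13 := by positivity
      nlinarith
    rw [hCX, mul_pow, hCe, ← Real.exp_nat_mul]
    have h6 : Real.exp (k * c) * Real.exp (-(2 * ((c + L) / Real.log (c + L) ^ 13))) ≤ Real.exp (-(L / Real.log L ^ 13)) := by
      rw [← Real.exp_add]
      apply Real.exp_le_exp.2
      linarith
    have h7 : (0 : ℝ) ≤ (X : ℝ) ^ k := by positivity
    calc _ = (X : ℝ) ^ k * (Real.exp (k * c) * Real.exp (-(2 * ((c + L) / Real.log (c + L) ^ 13)))) := by ring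
      _ ≤ _ := mul_le_mul_of_nonneg_left h6 h7

end Pool.Agent.J4H81.DK
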