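import Pool.Agent.J4H81.DK.Core
import Pool.Agent.J4H81.GB.ClsX

/-!
# Project DK: the functions of the forms `a_j n + b_j` in good classes
-/

set_option autoImplicit false

namespace Pool.Agent.J4H81.DK

open Finset MeasureTheory Filter
open Pool.Agent.J4H81.PT Pool.Agent.J4H32.MV Pool.Agent.J4H81.GB

/-- the functions of the forms -/
noncomputable def FA {K : ℕ} (σ : Fin K → Bool) (W T : ℕ) (c : ℕ → ℝ) (r : Fin K → ℕ) (j : Fin K) : ℕ → ℝ :=
  if σ j then rf T (FFc W c (r j)) else FFc W c (r j)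

noncomputable def vA {K : ℕ} (σ : Fin K → Bool) (W T : ℕ) (ω : ℕ → ℝ) (r : Fin K → ℕ) (j : Fin K) : ℕ → ℝ :=
  if σ j then rf T (fun s => ω (r j + W * s)) else fun s => ω (r j + W * s)

def DA {K : ℕ} (σ : Fin K → Bool) (W T : ℕ) (r : Fin K → ℕ) (j : Fin K) : ℤ :=
  if σ j then -(r j : ℤ) - W * ((T : ℤ) - 1) else (r j : ℤ)

theorem FA_true {K : ℕ} {σ : Fin K → Bool} {i : Fin K} (h : σ i = true) (W T : ℕ) (c : ℕ → ℝ) (r : Fin K → ℕ) :
    FA σ W T c r i = rf T (FFc W c (r i)) := by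
  unfold FA; simp [h]

theorem FA_false {K : ℕ} {σ : Fin K → Bool} {i : Fin K} (h : σ i = false) (W T : ℕ) (c : ℕ → ℝ) (r : Fin K → ℕ) :
    FA σ W T c r i = FFc W c (r i) := by
  unfold FA; simp [h]

theorem vA_true {K : ℕ} {σ : Fin K → Bool} {i : Fin K} (h : σ i = true) (W T : ℕ) (ω : ℕ → ℝ) (r : Fin K → ℕ) :
    vA σ W T ω r i = rf T (fun s => ω (r i + W * s)) := by
  unfold vA; simp [h]

theorem vA_false {K : ℕ} {σ : Fin K → Bool} {i : Fin K} (h : σ i = false) (W T : ℕ) (ω : ℕ → ℝ) (r : Fin K → ℕ) :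
    vA σ W T ω r i = fun s => ω (r i + W * s) := by
  unfold vA; simp [h]

theorem DA_true {K : ℕ} {σ : Fin K → Bool} {i : Fin K} (h : σ i = true) (W T : ℕ) (r : Fin K → ℕ) :
    DA σ W T r i = -(r i : ℤ) - W * ((T : ℤ) - 1) := by
  unfold DA; simp [h]

theorem DA_false {K : ℕ} {σ : Fin K → Bool} {i : Fin K} (h : σ i = false) (W T : ℕ) (r : Fin K → ℕ) :
    DA σ W T r i = (r i : ℤ) := by
  unfold DA; simp [h]

theorem FA_nonneg {K : ℕ} (σ : Fin K → Bool) {W T : ℕ} {c : ℕ → ℝ} (hc0 : ∀ n, 0 ≤ c n) (r : Fin K → ℕ) (j : Fin K) (s : ℕ) :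
    0 ≤ FA σ W T c r j s := by
  cases h : σ j
  · rw [FA_false h]; exact FFc_nonneg hc0 _ _
  · rw [FA_true h]; exact rf_nonneg (FFc_nonneg hc0 _) _

theorem FA_le {K : ℕ} (σ : Fin K → Bool) {W T : ℕ} (hW : 0 < W) {c : ℕ → ℝ} {B₀ : ℝ} (hB0 : 0 ≤ B₀) (hc0 : ∀ n, 0 ≤ c n) (hcB : ∀ n, c n ≤ B₀)
    (r : Fin K → ℕ) (j : Fin K) (s : ℕ) : FA σ W T c r j s ≤ B₀ := by
  cases h : σ j
  · rw [FA_false h]; exact FFc_le hW hc0 hcB _ _
  · rw [FA_true h]; exact rf_le hB0 (FFc_le hW hc0 hcB _) _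

/-- the variation along a progression -/
theorem step_var (f : ℕ → ℝ) (α t n : ℕ) :
    ∑ s ∈ range n, |f (α * (s + 1) + t) - f (α * s + t)| ≤ ∑ s ∈ range (α * n), |f (s + 1 + t) - f (s + t)| := by
  induction n with
  | zero => simp
  | succ n ih =>
    rw [sum_range_succ, Nat.mul_succ, sum_range_add]
    apply add_le_add ih
    have h : ∀ m : ℕ, |f (α * n + m + t) - f (α * n + t)| ≤ ∑ x ∈ range m, |f (α * n + x + 1 + t) - f (α * n + x + t)| := by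
      intro m
      induction m with
      | zero => simp
      | succ m ihm =>
        rw [sum_range_succ]
        have h1 := abs_sub_le (f (α * n + (m + 1) + t)) (f (α * n + m + t)) (f (α * n + t))
        have e : α * n + (m + 1) + t = α * n + m + 1 + t := by ring
        rw [e] at h1 ⊢
        linarith
    exact h α

theorem rf_varA {T : ℕ} {u : ℕ → ℝ} (h0 : ∀ s, 0 ≤ u s) (h1 : ∀ s, u s ≤ 1)
    (hvar : ∀ n : ℕ, ∑ s ∈ range n, |u (s + 1) - u s| ≤ 2) (α t n : ℕ) :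
    ∑ s ∈ range n, |rf T u (α * (s + 1) + t) - rf T u (α * s + t)| ≤ 3 := by
  refine (step_var (rf T u) α t n).trans ?_
  refine le_trans (b := ∑ s ∈ range T, |rf T u (s + 1 + t) - rf T u (s + t)|) ?_ (rf_var (T := T) h0 h1 hvar t)
  have e : ∑ s ∈ range (α * n), |rf T u (s + 1 + t) - rf T u (s + t)| =
      ∑ s ∈ (range (α * n)).filter (fun s => s < T), |rf T u (s + 1 + t) - rf T u (s + t)| := by
    rw [sum_filter]
    refine sum_congr rfl fun s _ => ?_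
    split_ifs with h
    · rfl
    · rw [rf_ge (by omega), rf_ge (by omega)]; simp
  rw [e]
  apply sum_le_sum_of_subset_of_nonneg
  · intro s hs
    rw [mem_filter] at hs
    exact mem_range.2 hs.2
  · intro _ _ _; exact abs_nonneg _

theorem coreAc (hTE : S_TEA) (hMD : S_MDA) (hEV : S_EV) (hREF : S_REF) {K : ℕ} (σ : Fin K → Bool) (α : Fin K → ℕ) {η θ : ℝ} {D : ℕ} {l : ℝ} {y w W T Q P N₁ : ℕ} {ω c : ℕ → ℝ} {B₀ m₀ Et : ℝ}
    (h : SDat η D l y w W T Q P N₁ ω c B₀ m₀ Et) {E a a₁ τ ε : ℝ} {S₀ : ℕ} (hw : 2 ≤ w)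
    (hα1 : ∀ j, 1 ≤ α j) (hαw : ∀ j, α j ≤ w) (hαT : ∀ j, α j * S₀ ≤ T)
    (r : Fin K → ℕ) (hr : ∀ i, r i < W)
    (hgood : ∀ x : ℕ, (∃ i, x = r i) →
      (∫ α in (0 : ℝ)..1, (MA P ((P : ℝ) / T)).indicator (fun α => ‖hat (cx (fun s => FFc W c x s - gg W Q ω x s)) T α‖ ^ 2) α ≤ E) ∧
      ∀ α : ℝ, α ∉ MA P ((P : ℝ) / T) → ‖hat (cx (fun s => FFc W c x s - gg W Q ω x s)) T α‖ ≤ m₀)
    (hMB : ∀ (C : Fin K → ℤ) (S : Finset (Fin K)), ∑ s ∈ range T, ∏ j ∈ S, GG W Q (C j + W * (α j * s)) ^ 2 ≤ a₁)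
    (ha : B₀ ^ (2 * K) * a₁ ≤ a) (hτ : 0 < τ) (hθ : 0 < θ)
    (hS1 : S₀ ≤ T) (hS2 : θ * T ≤ S₀) (hKη : K * η ≤ θ / 4)
    (hsm : K * (Real.sqrt (E * a) + τ) ≤ θ * T / 16)
    (hδ : 2 ^ K * ((K : ℝ) + 2) * (2 / w + K ^ 2 * ε) ≤ 1 / 3)
    (hQT : 2 * (Q : ℝ) ^ (2 * K) * (3 * K + 2) ≤ θ * T / 16) :
    ∃ Ex : Finset (Fin K → ℕ), (Ex.card : ℝ) ≤ K * (2 * m₀ ^ 2 * a / τ ^ 2) * (T : ℝ) ^ (K - 1) ∧
      ∀ t : Fin K → ℕ, (∀ j, t j < T) → (∀ j s, s < S₀ → α j * s + t j < T) → t ∉ Ex →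
        (∀ i j, i ≠ j → (α i : ℤ) * (DA σ W T r j + W * t j) ≠ α j * (DA σ W T r i + W * t i)) →
        (∀ i j, Sg w ((α i : ℤ) * (DA σ W T r j + W * t j) - α j * (DA σ W T r i + W * t i)) ≤ ε) →
        θ * T / 8 ≤ ∑ s ∈ range S₀, ∏ j, FA σ W T c r j (α j * s + t j) := by
  have hWpos : 0 < W := by rw [h.hW]; exact primorial_pos w
  have hB0 : 0 ≤ B₀ := by linarith [h.hB1]
  have hWw : ∀ p : ℕ, p.Prime → p ≤ w → p ∣ W := fun p hp hpw => by rw [h.hW]; exact hp.dvd_primorial_iff.2 hpw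
  have hvar0 : ∀ x n : ℕ, ∑ s ∈ range n, |(fun s => ω (x + W * s)) (s + 1) - (fun s => ω (x + W * s)) s| ≤ 2 := fun x n => h.hω.var x W n
  apply coreAb (η := η) hTE hMD (MA_meas P ((P : ℝ) / T)) hw h.hQ1 hWw h.hB1 h.hm0 hα1 hαw hαT (FA σ W T c r) (vA σ W T ω r) (DA σ W T r)
    (a₁ := a₁) (E := E)
  · exact FA_nonneg σ h.hc0 r
  · exact FA_le σ hWpos hB0 h.hc0 h.hcB r
  · intro j s hs
    cases hσ : σ j
    · rw [FA_false hσ]
      have h1 : W * T ≤ W * s := Nat.mul_le_mul_left W hs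
      have : c (r j + W * s) = 0 := h.hcN _ (by omega)
      unfold FFc; rw [this]; simp
    · rw [FA_true hσ]; exact rf_ge hs
  · intro j s
    cases hσ : σ j
    · rw [vA_false hσ]; exact h.hω.nonneg _
    · rw [vA_true hσ]; exact rf_nonneg (fun _ => h.hω.nonneg _) _
  · intro j s
    cases hσ : σ j
    · rw [vA_false hσ]; exact h.hω.le_one _
    · rw [vA_true hσ]; exact rf_le zero_le_one (fun _ => h.hω.le_one _) _
  · intro j s hs
    cases hσ : σ j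
    · rw [vA_false hσ]
      have h1 : W * T ≤ W * s := Nat.mul_le_mul_left W hs
      exact h.hω.zero_ge _ (by omega)
    · rw [vA_true hσ]; exact rf_ge hs
  · intro j t
    cases hσ : σ j
    · rw [vA_false hσ]
      have h1 := h.hω.var (r j + W * t) (W * α j) T
      have e : ∀ s, |ω (r j + W * (α j * (s + 1) + t)) - ω (r j + W * (α j * s + t))| =
          |ω (r j + W * t + W * α j * (s + 1)) - ω (r j + W * t + W * α j * s)| := by
        intro s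
        congr 3 <;> ring
      simp_rw [e]
      linarith
    · rw [vA_true hσ]
      exact rf_varA (u := fun s => ω (r j + W * s)) (fun _ => h.hω.nonneg _) (fun _ => h.hω.le_one _) (hvar0 (r j)) (α j) t T
  · intro j
    cases hσ : σ j
    · rw [vA_false hσ]; exact h.hmass (r j) (hr j)
    · rw [vA_true hσ, rf_sum]
      exact h.hmass (r j) (hr j)
  · intro j
    cases hσ : σ j
    · rw [FA_false hσ, vA_false hσ, DA_false hσ, diffn]
      exact (hgood (r j) ⟨j, rfl⟩).1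
    · rw [FA_true hσ, vA_true hσ, DA_true hσ, diffr hEV, (hREF T P ((P : ℝ) / T) _).1]
      exact (hgood (r j) ⟨j, rfl⟩).1
  · intro j
    cases hσ : σ j
    · rw [FA_false hσ, vA_false hσ, DA_false hσ, diffn]
      exact (hgood (r j) ⟨j, rfl⟩).2
    · rw [FA_true hσ, vA_true hσ, DA_true hσ, diffr hEV]
      exact (hREF T P ((P : ℝ) / T) _).2 m₀ (hgood (r j) ⟨j, rfl⟩).2
  · exact hMB
  · exact ha
  · exact hτ
  · exact hθ
  · exact hS1
  · exact hS2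
  · exact hKη
  · exact hsm
  · exact hδ
  · exact hQT

end Pool.Agent.J4H81.DK
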