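import Pool.Agent.J4H81.DK.Stm
import Pool.Agent.J4H32.MV.Co

/-!
# Project DK: correlations in good classes, with multipliers
-/

set_option autoImplicit false

namespace Pool.Agent.J4H81.DK

open Finset MeasureTheory Filter
open Pool.Agent.J4H81.PT Pool.Agent.J4H32.MV Pool.Agent.J4H81.GB

/-- the weight of a tuple -/
noncomputable def UA {K : ℕ} (v : Fin K → ℕ → ℝ) (α : Fin K → ℕ) (S₀ : ℕ) (t : Fin K → ℕ) (s : ℕ) : ℝ :=
  (if s < S₀ then 1 else 0) * ∏ j, v j (α j * s + t j)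

theorem UA_TV {K : ℕ} {v : Fin K → ℕ → ℝ} {α : Fin K → ℕ} {T : ℕ} (hv0 : ∀ j s, 0 ≤ v j s) (hv1 : ∀ j s, v j s ≤ 1)
    (hvar : ∀ j t, ∑ s ∈ range T, |v j (α j * (s + 1) + t) - v j (α j * s + t)| ≤ 3) (S₀ : ℕ) (t : Fin K → ℕ) :
    TV (UA v α S₀ t) T ≤ 3 * K + 2 := by
  unfold TV
  have hi0 : ∀ s : ℕ, (0 : ℝ) ≤ if s < S₀ then (1 : ℝ) else 0 := by intro s; split_ifs <;> norm_num
  have hi1 : ∀ s : ℕ, (if s < S₀ then (1 : ℝ) else 0) ≤ 1 := by intro s; split_ifs <;> norm_num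
  have hp0 : ∀ s : ℕ, 0 ≤ ∏ j, v j (α j * s + t j) := fun s => prod_nonneg fun _ _ => hv0 _ _
  have hp1 : ∀ s : ℕ, ∏ j, v j (α j * s + t j) ≤ 1 := fun s => prod_le_one (fun _ _ => hv0 _ _) fun _ _ => hv1 _ _
  have h1 : |UA v α S₀ t 0| ≤ 1 := by
    unfold UA
    rw [abs_of_nonneg (mul_nonneg (hi0 _) (hp0 _))]
    exact mul_le_one₀ (hi1 _) (hp0 _) (hp1 _)
  have h2 : ∑ s ∈ range T, |UA v α S₀ t (s + 1) - UA v α S₀ t s| ≤
      ∑ s ∈ range T, (|(if s + 1 < S₀ then (1 : ℝ) else 0) - (if s < S₀ then 1 else 0)| +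
        |∏ j, v j (α j * (s + 1) + t j) - ∏ j, v j (α j * s + t j)|) := by
    apply sum_le_sum
    intro s _
    unfold UA
    exact var_mul (hi0 _) (hi1 _) (hp0 _) (hp1 _)
  rw [sum_add_distrib] at h2
  have h3 := var_ind S₀ T
  have h4 := var_prod (univ : Finset (Fin K)) (fun j s => v j (α j * s + t j)) (fun _ _ => hv0 _ _) (fun _ _ => hv1 _ _) T
  have h5 : ∑ j : Fin K, ∑ s ∈ range T, |v j (α j * (s + 1) + t j) - v j (α j * s + t j)| ≤ ∑ j : Fin K, (3 : ℝ) :=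
    sum_le_sum fun j _ => hvar j (t j)
  rw [sum_const, card_univ, Fintype.card_fin, nsmul_eq_mul] at h5
  linarith

/-- the mass of the weight of a tuple -/
theorem UA_mass {K : ℕ} {v : Fin K → ℕ → ℝ} {α : Fin K → ℕ} {T S₀ : ℕ} {η : ℝ} {t : Fin K → ℕ} (hα : ∀ j, 1 ≤ α j) (hv0 : ∀ j s, 0 ≤ v j s) (hv1 : ∀ j s, v j s ≤ 1)
    (hmass : ∀ j, (1 - η) * T ≤ ∑ s ∈ range T, v j s) (hS : ∀ j s, s < S₀ → α j * s + t j < T) (hS₀ : S₀ ≤ T) :
    (S₀ : ℝ) - K * (η * T) ≤ ∑ s ∈ range T, UA v α S₀ t s := by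
  have h1 : ∑ s ∈ range T, UA v α S₀ t s = ∑ s ∈ range S₀, ∏ j, v j (α j * s + t j) := by
    have h2 : ∀ s, UA v α S₀ t s = if s < S₀ then ∏ j, v j (α j * s + t j) else 0 := by
      intro s
      unfold UA
      split_ifs
      · rw [one_mul]
      · rw [zero_mul]
    simp_rw [h2]
    rw [← sum_filter]
    apply sum_congr _ fun _ _ => rfl
    ext s
    simp only [mem_filter, mem_range]
    omega
  rw [h1]
  have h3 : ∀ s, 1 - ∑ j, (1 - v j (α j * s + t j)) ≤ ∏ j, v j (α j * s + t j) := by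
    intro s
    exact weier univ (fun j => v j (α j * s + t j)) (fun _ => hv0 _ _) (fun _ => hv1 _ _)
  have h5 : ∑ s ∈ range S₀, (1 - ∑ j, (1 - v j (α j * s + t j))) ≤ ∑ s ∈ range S₀, ∏ j, v j (α j * s + t j) :=
    sum_le_sum fun s _ => h3 s
  refine le_trans ?_ h5
  rw [sum_sub_distrib, sum_comm, sum_const, card_range, nsmul_eq_mul, mul_one]
  have h6 : ∀ j : Fin K, ∑ s ∈ range S₀, (1 - v j (α j * s + t j)) ≤ η * T := by
    intro j
    have h7 : ∑ s ∈ range S₀, (1 - v j (α j * s + t j)) ≤ ∑ s ∈ range T, (1 - v j s) := by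
      have hinj : Set.InjOn (fun s => α j * s + t j) (range S₀ : Set ℕ) := by
        intro s _ s' _ h
        simp only at h
        have h4 : α j * s = α j * s' := by omega
        exact Nat.eq_of_mul_eq_mul_left (hα j) h4
      have e : ∑ s ∈ range S₀, (1 - v j (α j * s + t j)) = ∑ x ∈ (range S₀).image (fun s => α j * s + t j), (1 - v j x) := by
        rw [sum_image hinj]
      rw [e]
      apply sum_le_sum_of_subset_of_nonneg
      · intro x hx
        rw [Finset.mem_image] at hx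
        obtain ⟨s, hs, rfl⟩ := hx
        rw [mem_range] at hs ⊢
        exact hS j s hs
      · intro s _ _
        linarith [hv1 j s]
    refine h7.trans ?_
    rw [sum_sub_distrib, sum_const, card_range, nsmul_eq_mul, mul_one]
    have := hmass j
    linarith
  have h8 : ∑ j : Fin K, ∑ s ∈ range S₀, (1 - v j (α j * s + t j)) ≤ ∑ j : Fin K, η * T := sum_le_sum fun j _ => h6 j
  rw [sum_const, card_univ, Fintype.card_fin, nsmul_eq_mul] at h8
  linarith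

theorem coreAb (hTE : S_TEA) (hMD : S_MDA) {K T S₀ W Q w : ℕ} {α : Fin K → ℕ} {η θ B₀ m₀ E a a₁ τ ε : ℝ} {A : Set ℝ} (hA : MeasurableSet A)
    (hw : 2 ≤ w) (hQ1 : 1 ≤ Q) (hWw : ∀ p : ℕ, p.Prime → p ≤ w → p ∣ W) (hB1 : 1 ≤ B₀) (hm0 : 0 ≤ m₀)
    (hα1 : ∀ j, 1 ≤ α j) (hαw : ∀ j, α j ≤ w) (hαT : ∀ j, α j * S₀ ≤ T)
    (F v : Fin K → ℕ → ℝ) (D : Fin K → ℤ)
    (hF0 : ∀ j s, 0 ≤ F j s) (hFB : ∀ j s, F j s ≤ B₀) (hFz : ∀ j s, T ≤ s → F j s = 0)
    (hv0 : ∀ j s, 0 ≤ v j s) (hv1 : ∀ j s, v j s ≤ 1) (hvz : ∀ j s, T ≤ s → v j s = 0)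
    (hvar : ∀ j t, ∑ s ∈ range T, |v j (α j * (s + 1) + t) - v j (α j * s + t)| ≤ 3)
    (hmass : ∀ j, (1 - η) * T ≤ ∑ s ∈ range T, v j s)
    (hen : ∀ j, ∫ x in (0 : ℝ)..1, A.indicator (fun x => ‖hat (cx (fun s => F j s - v j s * GG W Q (D j + W * s))) T x‖ ^ 2) x ≤ E)
    (hmin : ∀ j, ∀ x : ℝ, x ∉ A → ‖hat (cx (fun s => F j s - v j s * GG W Q (D j + W * s))) T x‖ ≤ m₀)
    (hMB : ∀ (C : Fin K → ℤ) (S : Finset (Fin K)), ∑ s ∈ range T, ∏ j ∈ S, GG W Q (C j + W * (α j * s)) ^ 2 ≤ a₁)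
    (ha : B₀ ^ (2 * K) * a₁ ≤ a) (hτ : 0 < τ) (hθ : 0 < θ)
    (hS1 : S₀ ≤ T) (hS2 : θ * T ≤ S₀) (hKη : K * η ≤ θ / 4)
    (hsm : K * (Real.sqrt (E * a) + τ) ≤ θ * T / 16)
    (hδ : 2 ^ K * ((K : ℝ) + 2) * (2 / w + K ^ 2 * ε) ≤ 1 / 3)
    (hQT : 2 * (Q : ℝ) ^ (2 * K) * (3 * K + 2) ≤ θ * T / 16) :
    ∃ Ex : Finset (Fin K → ℕ), (Ex.card : ℝ) ≤ K * (2 * m₀ ^ 2 * a / τ ^ 2) * (T : ℝ) ^ (K - 1) ∧
      ∀ t : Fin K → ℕ, (∀ j, t j < T) → (∀ j s, s < S₀ → α j * s + t j < T) → t ∉ Ex →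
        (∀ i j, i ≠ j → (α i : ℤ) * (D j + W * t j) ≠ α j * (D i + W * t i)) →
        (∀ i j, Sg w ((α i : ℤ) * (D j + W * t j) - α j * (D i + W * t i)) ≤ ε) →
        θ * T / 8 ≤ ∑ s ∈ range S₀, ∏ j, F j (α j * s + t j) := by
  classical
  have hB0 : 0 ≤ B₀ := by linarith
  have hT0 : (0 : ℝ) ≤ T := Nat.cast_nonneg _
  have hgz : ∀ (j : Fin K) s, T ≤ s → v j s * GG W Q (D j + W * s) = 0 := by
    intro j s hs
    rw [hvz j s hs, zero_mul]
  have hS1' : range S₀ ⊆ range T := range_subset_range.2 hS1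
  -- the mean squares
  have hsq : ∀ (i : Fin K) (t : Fin K → ℕ), ∑ s ∈ range S₀,
      ((∏ j ∈ univ.filter (fun j => j < i), (fun (j : Fin K) (s : ℕ) => v j s * GG W Q (D j + W * s)) j (α j * s + t j)) *
        ∏ j ∈ univ.filter (fun j => i < j), F j (α j * s + t j)) ^ 2 ≤ a := by
    intro i t
    refine le_trans ?_ ha
    have h1 := hMB (fun j => D j + W * t j) (univ.filter (fun j => j < i))
    refine le_trans ?_ (mul_le_mul_of_nonneg_left h1 (by positivity))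
    refine le_trans (sum_le_sum_of_subset_of_nonneg hS1' fun _ _ _ => sq_nonneg _) ?_
    rw [mul_sum]
    apply sum_le_sum
    intro s _
    rw [mul_pow, mul_comm]
    apply mul_le_mul
    · have h2 : |∏ j ∈ univ.filter (fun j => i < j), F j (α j * s + t j)| ≤ B₀ ^ K := by
        rw [abs_prod]
        calc ∏ j ∈ univ.filter (fun j => i < j), |F j (α j * s + t j)| ≤ ∏ j ∈ univ.filter (fun j : Fin K => i < j), B₀ := by
              apply prod_le_prod (fun _ _ => abs_nonneg _)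
              intro j _
              rw [abs_of_nonneg (hF0 _ _)]
              exact hFB _ _
          _ = B₀ ^ (univ.filter (fun j : Fin K => i < j)).card := by rw [prod_const]
          _ ≤ B₀ ^ K := by
              apply pow_le_pow_right₀ hB1
              refine (card_filter_le _ _).trans ?_
              rw [card_univ, Fintype.card_fin]
      rw [← sq_abs]
      calc _ ≤ (B₀ ^ K) ^ 2 := pow_le_pow_left₀ (abs_nonneg _) h2 2
        _ = B₀ ^ (2 * K) := by rw [← pow_mul]; congr 1; ring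
    · rw [← prod_pow]
      apply prod_le_prod (fun _ _ => sq_nonneg _)
      intro j _
      have e : D j + (W : ℤ) * ((α j * s + t j : ℕ) : ℤ) = D j + W * t j + W * (α j * s) := by push_cast; ring
      beta_reduce
      rw [e, mul_pow]
      have h3 : v j (α j * s + t j) ^ 2 ≤ 1 := pow_le_one₀ (hv0 _ _) (hv1 _ _)
      calc _ ≤ 1 * GG W Q (D j + W * t j + W * (α j * s)) ^ 2 := mul_le_mul_of_nonneg_right h3 (sq_nonneg _)
        _ = _ := one_mul _
    · exact sq_nonneg _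
    · positivity
  have hte := hTE K T S₀ α F (fun (j : Fin K) (s : ℕ) => v j s * GG W Q (D j + W * s)) A E m₀ a τ hA hα1 hαT
    hFz hgz hm0 hτ hen (fun j x _ _ hx => hmin j x hx) hsq
  refine ⟨_, hte, ?_⟩
  intro t ht htS hEx hinj hSg
  have h1 : |∑ s ∈ range S₀, (∏ j, F j (α j * s + t j) - ∏ j, (fun (j : Fin K) (s : ℕ) => v j s * GG W Q (D j + W * s)) j (α j * s + t j))| ≤
      K * (Real.sqrt (E * a) + τ) := by
    by_contra hcon
    push Not at hcon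
    apply hEx
    rw [Finset.mem_filter]
    exact ⟨Fintype.mem_piFinset.2 fun j => Finset.mem_range.2 (ht j), hcon⟩
  beta_reduce at h1
  -- the model
  set C : Fin K → ℤ := fun j => D j + W * t j with hC
  have hV0 : ∀ s, 0 ≤ UA v α S₀ t s := by
    intro s
    unfold UA
    apply mul_nonneg
    · split_ifs <;> norm_num
    · exact prod_nonneg fun _ _ => hv0 _ _
  have hVT : UA v α S₀ t T = 0 := by
    unfold UA
    rw [if_neg (by omega), zero_mul]
  have hmd := hMD W Q K T w α C (UA v α S₀ t) hQ1 hw hWw hα1 hαw hVT hV0 hinj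
  have hTV := UA_TV hv0 hv1 hvar S₀ t
  have hmassV := UA_mass (S₀ := S₀) (t := t) hα1 hv0 hv1 hmass htS hS1
  set I : ℝ := ∑ s ∈ range T, UA v α S₀ t s with hI
  have hθT : 0 ≤ θ * T := by positivity
  have hI1 : 3 * (θ * T) / 4 ≤ I := by
    have : (K : ℝ) * (η * T) = (K * η) * T := by ring
    rw [this] at hmassV
    have h2 : (K * η) * (T : ℝ) ≤ θ / 4 * T := mul_le_mul_of_nonneg_right hKη hT0
    have h3 : θ / 4 * (T : ℝ) = θ * T / 4 := by ring
    linarith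
  have hI0 : 0 ≤ I := by linarith
  have hexp : Real.exp (2 ^ K * ((K : ℝ) + 2) * (2 / w + ∑ i : Fin K, ∑ j : Fin K, Sg w ((α i : ℤ) * C j - α j * C i))) ≤ 3 / 2 := by
    have h2 : ∑ i : Fin K, ∑ j : Fin K, Sg w ((α i : ℤ) * C j - α j * C i) ≤ K ^ 2 * ε := by
      calc _ ≤ ∑ i : Fin K, ∑ j : Fin K, ε := sum_le_sum fun i _ => sum_le_sum fun j _ => hSg i j
        _ = K ^ 2 * ε := by
            rw [sum_const, sum_const, card_univ, Fintype.card_fin, nsmul_eq_mul, nsmul_eq_mul]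
            ring
    have h3 : 2 ^ K * ((K : ℝ) + 2) * (2 / w + ∑ i : Fin K, ∑ j : Fin K, Sg w ((α i : ℤ) * C j - α j * C i)) ≤ 1 / 3 := by
      refine le_trans ?_ hδ
      apply mul_le_mul_of_nonneg_left _ (by positivity)
      linarith
    refine (Real.exp_le_exp.2 h3).trans ?_
    have h4 : Real.exp (1 / 3) ^ 3 ≤ (3 / 2) ^ 3 := by
      rw [← Real.exp_nat_mul]
      norm_num
      have := Real.exp_one_lt_d9
      linarith
    exact le_of_pow_le_pow_left₀ (by norm_num) (by norm_num) h4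
  have hg1 : ∑ s ∈ range S₀, ∏ j, (v j (α j * s + t j) * GG W Q (D j + W * ((α j * s + t j : ℕ) : ℤ))) =
      ∑ s ∈ range T, UA v α S₀ t s * ∏ j, GG W Q (C j + W * (α j * s)) := by
    have e1 : ∀ s : ℕ, UA v α S₀ t s * ∏ j, GG W Q (C j + W * (α j * s)) =
        if s < S₀ then ∏ j, (v j (α j * s + t j) * GG W Q (D j + W * ((α j * s + t j : ℕ) : ℤ))) else 0 := by
      intro s
      unfold UA
      split_ifs
      · rw [one_mul, ← prod_mul_distrib]
        refine prod_congr rfl fun j _ => ?_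
        have e : D j + (W : ℤ) * ((α j * s + t j : ℕ) : ℤ) = C j + W * (α j * s) := by rw [hC]; push_cast; ring
        rw [e]
      · rw [zero_mul, zero_mul]
    simp_rw [e1]
    rw [← sum_filter]
    apply sum_congr _ fun _ _ => rfl
    ext s
    simp only [Finset.mem_filter, Finset.mem_range]
    omega
  rw [← hg1] at hmd
  have hQ0 : 0 ≤ 2 * (Q : ℝ) ^ (2 * K) := by positivity
  have h5 : 2 * (Q : ℝ) ^ (2 * K) * TV (UA v α S₀ t) T ≤ θ * T / 16 := (mul_le_mul_of_nonneg_left hTV hQ0).trans hQT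
  have h6 : (Real.exp (2 ^ K * ((K : ℝ) + 2) * (2 / w + ∑ i : Fin K, ∑ j : Fin K, Sg w ((α i : ℤ) * C j - α j * C i))) - 1) * I ≤ 1 / 2 * I :=
    mul_le_mul_of_nonneg_right (by linarith) hI0
  have h7 := (abs_le.1 hmd).1
  rw [sum_sub_distrib] at h1
  have h8 := (abs_le.1 h1).1
  linarith

end Pool.Agent.J4H81.DK
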