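import Pool.Agent.J4H81.DK.Cls
import Pool.Agent.J4H81.GB.FbX

/-!
# Project DK: exceptional vectors of constant terms at one scale
-/

set_option autoImplicit false

namespace Pool.Agent.J4H81.DK

open Finset MeasureTheory Filter
open Pool.Agent.J4H81.PT Pool.Agent.J4H32.MV Pool.Agent.J4H81.GB

/-- the number of the natural numbers `n ≤ X / (2 R)` such that all the `a_j n + b_j` are primes -/
noncomputable def GA {k : ℕ} (a : Fin (k + 1) → ℤ) (b₀ : ℕ) (x : Fin k → ℕ) (R X : ℕ) : ℕ :=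
  ((range (X / (2 * R) + 1)).filter (fun n : ℕ => ∀ j, (a j * (n : ℤ) + bs b₀ x j).toNat.Prime)).card

/-- the sign of a form -/
def sa {K : ℕ} (a : Fin K → ℤ) (j : Fin K) : Bool := decide (a j < 0)

/-- the modulus of the multiplier -/
def al {K : ℕ} (a : Fin K → ℤ) (j : Fin K) : ℕ := (a j).natAbs

theorem sa_true {K : ℕ} {a : Fin K → ℤ} {j : Fin K} (h : sa a j = true) : a j = -(al a j : ℤ) := by
  unfold sa at h
  unfold al
  have := of_decide_eq_true h
  omega

theorem sa_false {K : ℕ} {a : Fin K → ℤ} {j : Fin K} (h : sa a j = false) : a j = (al a j : ℤ) := by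
  unfold sa at h
  unfold al
  have := of_decide_eq_false h
  omega

theorem al_pos {K : ℕ} {a : Fin K → ℤ} (h : ∀ j, a j ≠ 0) (j : Fin K) : 1 ≤ al a j := by
  unfold al
  have := h j
  omega

theorem al_le {K R : ℕ} {a : Fin K → ℤ} (h : ∀ j, |a j| ≤ R) (j : Fin K) : al a j ≤ R := by
  unfold al
  have h1 := h j
  rw [Int.abs_eq_natAbs] at h1
  exact_mod_cast h1

/-- the arithmetic of the reflection -/
theorem arithA {W T c N r u : ℕ} (hr : r < W) (hN : N = c + r + W * u) (hNT : N < W * T) :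
    u < T ∧ (c + (W * T - 1 - N)) / W = T - 1 - u := by
  have hW : 0 < W := by omega
  have hu : u < T := by
    by_contra hcon
    have h1 : W * T ≤ W * u := Nat.mul_le_mul_left W (by omega)
    omega
  have h1 : W * T = W * (T - 1 - u) + W * u + W := by
    obtain ⟨d, rfl⟩ : ∃ d, T = d + 1 + u := ⟨T - 1 - u, by omega⟩
    have : d + 1 + u - 1 - u = d := by omega
    rw [this]
    ring
  refine ⟨hu, ?_⟩
  have h2 : c + (W * T - 1 - N) = (W - 1 - r) + W * (T - 1 - u) := by omega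
  rw [h2, Nat.add_mul_div_left _ _ hW, Nat.div_eq_of_lt (by omega), zero_add]

theorem arithB {W T N : ℕ} (hW : 0 < W) (hNT : N < W * T) : (W * T - 1 - N) % W = W - 1 - N % W := by
  have h3 := Nat.div_add_mod N W
  have h4 := Nat.mod_lt N hW
  have h5 : N / W < T := (Nat.div_lt_iff_lt_mul hW).2 (by rw [mul_comm]; exact hNT)
  have h6 : W * T = W * (T - 1 - N / W) + W * (N / W) + W := by
    obtain ⟨d, hd⟩ : ∃ d, T = d + 1 + N / W := ⟨T - 1 - N / W, by omega⟩
    have : T - 1 - N / W = d := by omega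
    rw [this, hd]
    ring
  have h7 : W * T - 1 - N = (W - 1 - N % W) + W * (T - 1 - N / W) := by omega
  rw [h7, Nat.add_mul_mod_self_left, Nat.mod_eq_of_lt (by omega)]

theorem count_lowerA {k W T S₀ R X b t : ℕ} {a : Fin (k + 1) → ℤ} {c : ℕ → ℝ} {B₀ : ℝ} (hW : 0 < W) (hc0 : ∀ n, 0 ≤ c n) (hcB : ∀ n, c n ≤ B₀)
    (hcp : ∀ n, c n ≠ 0 → n.Prime) (hB1 : 1 ≤ B₀) (b₀ : ℕ) (x : Fin k → ℕ) (r τ : Fin (k + 1) → ℕ)
    (hrt : ∀ j s, sa a j = true → al a j * s + τ j < T → ((r j + W * (T - 1 - (al a j * s + τ j)) : ℕ) : ℤ) = a j * (b + W * (s + t) : ℕ) + bs b₀ x j)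
    (hrf : ∀ j s, sa a j = false → ((r j + W * (al a j * s + τ j) : ℕ) : ℤ) = a j * (b + W * (s + t) : ℕ) + bs b₀ x j)
    (hX : ∀ s < S₀, b + W * (s + t) ≤ X / (2 * R)) :
    ∑ s ∈ range S₀, ∏ j, FA (sa a) W T c r j (al a j * s + τ j) ≤ B₀ ^ (k + 1) * GA a b₀ x R X := by
  classical
  have hB0 : 0 ≤ B₀ := by linarith
  set G : Finset ℕ := (range S₀).filter (fun s => ∀ j, FA (sa a) W T c r j (al a j * s + τ j) ≠ 0) with hG
  have h1 : ∑ s ∈ range S₀, ∏ j, FA (sa a) W T c r j (al a j * s + τ j) = ∑ s ∈ G, ∏ j, FA (sa a) W T c r j (al a j * s + τ j) := by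
    rw [hG, sum_filter]
    refine sum_congr rfl fun s _ => ?_
    split_ifs with h
    · rfl
    · push Not at h
      obtain ⟨j, hj⟩ := h
      exact prod_eq_zero (Finset.mem_univ j) hj
  rw [h1]
  have h2 : ∑ s ∈ G, ∏ j, FA (sa a) W T c r j (al a j * s + τ j) ≤ ∑ s ∈ G, B₀ ^ (k + 1) := by
    apply sum_le_sum
    intro s _
    calc ∏ j, FA (sa a) W T c r j (al a j * s + τ j) ≤ ∏ j : Fin (k + 1), B₀ :=
          prod_le_prod (fun _ _ => FA_nonneg _ hc0 r _ _) fun _ _ => FA_le _ hW hB0 hc0 hcB r _ _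
      _ = B₀ ^ (k + 1) := by rw [prod_const, card_univ, Fintype.card_fin]
  refine h2.trans ?_
  rw [sum_const, nsmul_eq_mul, mul_comm]
  apply mul_le_mul_of_nonneg_left _ (by positivity)
  have h3 : G.card ≤ GA a b₀ x R X := by
    unfold GA
    apply card_le_card_of_injOn (fun s => b + W * (s + t))
    · intro s hs
      rw [Finset.mem_coe, hG, Finset.mem_filter, Finset.mem_range] at hs
      rw [Finset.mem_coe, Finset.mem_filter, Finset.mem_range]
      refine ⟨by have := hX s hs.1; show b + W * (s + t) < X / (2 * R) + 1; omega, fun j => ?_⟩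
      cases hσ : sa a j
      · have h4 := hs.2 j
        rw [FA_false hσ] at h4
        have h7 := FFc_prime hcp h4
        show (a j * ((b + W * (s + t) : ℕ) : ℤ) + bs b₀ x j).toNat.Prime
        rw [← hrf j s hσ, Int.toNat_natCast]
        exact h7
      · have h4 := hs.2 j
        rw [FA_true hσ] at h4
        obtain ⟨h5, h6⟩ := rf_ne h4
        have h7 := FFc_prime hcp h6
        show (a j * ((b + W * (s + t) : ℕ) : ℤ) + bs b₀ x j).toNat.Prime
        rw [← hrt j s hσ h5, Int.toNat_natCast]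
        exact h7
    · intro s _ s' _ h
      simp only at h
      have h4 : W * (s + t) = W * (s' + t) := by omega
      have h5 := Nat.eq_of_mul_eq_mul_left hW h4
      omega
  exact_mod_cast h3

open Classical in
theorem fin1A (hTE : S_TEA) (hMD : S_MDA) (hEV : S_EV) (hREF : S_REF) (hRC : S_RC) (hRCA : S_RCA) (hMB : S_MBA) (hCN : S_CNA) {k D c₁ R : ℕ} (a : Fin (k + 1) → ℤ) (b₀ : ℕ) {η l ε C : ℝ} {X : ℕ}
    (ha0 : 0 < a 0) (hane : ∀ j, a j ≠ 0) (haR : ∀ j, |a j| ≤ R) (hR1 : 1 ≤ R) (hb₀ : b₀ ≤ X)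
    (hKη : ((k + 1 : ℕ) : ℝ) * η ≤ 1 / (40 * R) / 4)
    (hD : D = 2 * (k + 1) + c₁ + 5)
    (hPS : ∀ Q : ℕ, (Q : ℝ) ≤ Real.exp l → ∑ p ∈ (range (Q + 1)).filter Nat.Prime, 1 / (p : ℝ) ≤ C * Real.log l)
    (hc₁ : 4 ^ (k + 1) * (2 * ((k + 1 : ℕ) : ℝ) + 2) * C ≤ c₁)
    (hl4 : 10 ^ 4 ≤ l) (hl2 : 4 * (R * (((k + 1 : ℕ) : ℝ) ^ 2 * (2 * ((k + 1 : ℕ) : ℝ)) ^ (2 * (k + 1)))) ≤ l) (hl3 : 1000 * ((k + 1 : ℕ) : ℝ) ≤ l)
    (hlR : 2000 * (R : ℝ) ≤ l) (hlR2 : 1000 * (R : ℝ) ≤ Real.exp (l / 2000))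
    (hl5 : 24000 * (2 ^ (k + 1) * (((k + 1 : ℕ) : ℝ) + 2)) ≤ l) (hε0 : 0 ≤ ε) (hε : 2 ^ (k + 1) * (((k + 1 : ℕ) : ℝ) + 2) * (((k + 1 : ℕ) : ℝ) ^ 2 * ε) ≤ 1 / 6)
    (hl6 : 4 * ((k + 1 : ℕ) : ℝ) * l ^ (c₁ + 4) ≤ Real.exp (l / 250))
    (hX : Real.exp ((((k + 1 : ℕ) : ℝ) + 3) * l) ≤ X)
    (hSD : SD η D l (4 * X)) :
    ∃ w : ℕ, l / 2000 ≤ w ∧ (((Fintype.piFinset (fun i : Fin k => rg (sa a i.succ) X)).filter (fun N => AdA a b₀ N ∧ (GA a b₀ N R X : ℝ) < X * Real.exp (-(l / 300)) ∧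
      ¬ ∃ i j : Fin (k + 1), i ≠ j ∧ (a i * bs b₀ N j = a j * bs b₀ N i ∨ ε < Sg w (a i * bs b₀ N j - a j * bs b₀ N i)))).card : ℝ) ≤
        40 * R * 5 ^ k * (X : ℝ) ^ k * Real.exp (-(l / 200)) := by
  obtain ⟨w, W, T, Q, P, N₁, ω, c, B₀, m₀, Et, h⟩ := hSD
  have hK1 : (1 : ℝ) ≤ ((k + 1 : ℕ) : ℝ) := by push_cast; linarith [(Nat.cast_nonneg k : (0 : ℝ) ≤ k)]
  have hK0 : (0 : ℝ) < ((k + 1 : ℕ) : ℝ) := by linarith
  have hR0 : (1 : ℝ) ≤ R := by exact_mod_cast hR1
  have hR00 : (0 : ℝ) < R := by linarith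
  have hl0 : 0 < l := by linarith
  have hl1 : 1 ≤ l := by linarith
  have hWpos : 0 < W := by rw [h.hW]; exact primorial_pos w
  have : NeZero W := ⟨hWpos.ne'⟩
  have hW0 : (0 : ℝ) < W := by exact_mod_cast hWpos
  have hW1 : (1 : ℝ) ≤ W := by exact_mod_cast hWpos
  have hwr : 5 ≤ (w : ℝ) := by linarith [h.hw1]
  have hw2 : 2 ≤ w := by
    have : (2 : ℝ) ≤ w := by linarith
    exact_mod_cast this
  have hw0 : (0 : ℝ) < w := by linarith
  have hRw : R ≤ w := by
    have : (R : ℝ) ≤ w := by linarith [h.hw1]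
    exact_mod_cast this
  have hX0 : (0 : ℝ) < X := lt_of_lt_of_le (Real.exp_pos _) hX
  have he1 : 2000 * (R : ℝ) ≤ Real.exp l := by
    have := Real.add_one_le_exp l
    linarith
  have hα1 := al_pos hane
  have hαR := al_le haR
  have hσ0 : sa a 0 = false := by
    unfold sa
    rw [decide_eq_false_iff_not]
    exact not_lt.2 ha0.le
  -- the ranges
  have hWXR : W * (100 * R) ≤ X := by
    have h1 : (W : ℝ) * (100 * R) ≤ X := by
      calc (W : ℝ) * (100 * R) ≤ Real.exp (l / 700) * Real.exp l := by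
            apply mul_le_mul h.hWl (by linarith) (by positivity) (Real.exp_pos _).le
        _ = Real.exp (l / 700 + l) := (Real.exp_add _ _).symm
        _ ≤ Real.exp (((k + 1 : ℕ) + 3) * l) := by
            apply Real.exp_le_exp.2
            nlinarith only [hK1, hl0]
        _ ≤ X := hX
    exact_mod_cast h1
  have hWX : W * 20 ≤ X := le_trans (Nat.mul_le_mul_left W (by omega)) hWXR
  obtain ⟨hq1, hq2, hWT, h3X, hq20, hWq⟩ := ranges hWpos h.hT hWX
  set q : ℕ := X / W with hq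
  have hq100 : 100 * R ≤ q := by
    rw [hq, Nat.le_div_iff_mul_le hWpos]
    linarith [hWXR, Nat.mul_comm W (100 * R)]
  set S₀ : ℕ := q / (8 * R) with hS₀
  have h8R : 0 < 8 * R := by omega
  have hS12 : 12 ≤ S₀ := by
    rw [hS₀, Nat.le_div_iff_mul_le h8R]
    omega
  have hS8 : S₀ * (8 * R) ≤ q := Nat.div_mul_le_self q (8 * R)
  have hSlow : q < (S₀ + 1) * (8 * R) := by
    rw [hS₀]
    exact Nat.lt_mul_of_div_lt (Nat.lt_succ_self _) h8R
  have hTS : T ≤ 40 * R * S₀ := by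
    have h1 : (S₀ + 1) * (8 * R) = 8 * R * S₀ + 8 * R := by ring
    have h2 : 12 * R ≤ S₀ * R := Nat.mul_le_mul_right R hS12
    have h3 : 40 * R * S₀ = 40 * (S₀ * R) := by ring
    have h4 : 8 * R * S₀ = 8 * (S₀ * R) := by ring
    rw [h1, h4] at hSlow
    rw [h3]
    omega
  have hRS : R * S₀ ≤ T := by
    have h1 : S₀ * (8 * R) = 8 * (R * S₀) := by ring
    rw [h1] at hS8
    omega
  have hTpos : 1 ≤ T := by omega
  have hT0 : (0 : ℝ) < T := by exact_mod_cast hTpos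
  have h3Xr : 3 * (X : ℝ) ≤ W * T := by exact_mod_cast h3X
  have hWTr : (W : ℝ) * T ≤ 4 * X + 1 := by exact_mod_cast hWT
  have hX1 : (1 : ℝ) ≤ X := by
    have : 0 < X := by exact_mod_cast hX0
    exact_mod_cast this
  have hT3 : 3 * (X : ℝ) * Real.exp (-(l / 700)) ≤ T := by
    have h1 : 3 * (X : ℝ) ≤ Real.exp (l / 700) * T := h3Xr.trans (mul_le_mul_of_nonneg_right h.hWl hT0.le)
    calc 3 * (X : ℝ) * Real.exp (-(l / 700)) ≤ Real.exp (l / 700) * T * Real.exp (-(l / 700)) :=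
          mul_le_mul_of_nonneg_right h1 (Real.exp_pos _).le
      _ = T * (Real.exp (l / 700) * Real.exp (-(l / 700))) := by ring
      _ = T := by rw [← Real.exp_add]; simp
  have hTexp : Real.exp (((k + 1 : ℕ) + 2) * l) ≤ T := by
    calc Real.exp (((k + 1 : ℕ) + 2) * l) ≤ Real.exp (((k + 1 : ℕ) + 3) * l + -(l / 700)) := Real.exp_le_exp.2 (by linarith)
      _ = Real.exp (((k + 1 : ℕ) + 3) * l) * Real.exp (-(l / 700)) := Real.exp_add _ _
      _ ≤ X * Real.exp (-(l / 700)) := mul_le_mul_of_nonneg_right hX (Real.exp_pos _).le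
      _ ≤ 3 * X * Real.exp (-(l / 700)) := by
          apply mul_le_mul_of_nonneg_right _ (Real.exp_pos _).le
          linarith
      _ ≤ T := hT3
  -- the moments
  have hB0 : 0 < B₀ := by linarith [h.hB1]
  have hB2K : 0 < B₀ ^ (2 * (k + 1 : ℕ)) := by positivity
  have hQel : (Q : ℝ) ≤ Real.exp l := h.hQl.trans (Real.exp_le_exp.2 (by linarith))
  have hlc1 : 1 ≤ l ^ c₁ := one_le_pow₀ hl1
  have hQpow : (Q : ℝ) ^ (4 * (k + 1 : ℕ)) ≤ Real.exp (((k + 1 : ℕ) : ℝ) * l) := by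
    calc (Q : ℝ) ^ (4 * (k + 1 : ℕ)) ≤ Real.exp (l / 40) ^ (4 * (k + 1 : ℕ)) := pow_le_pow_left₀ (Nat.cast_nonneg _) h.hQl _
      _ = Real.exp ((4 * (k + 1 : ℕ) : ℕ) * (l / 40)) := by rw [← Real.exp_nat_mul]
      _ ≤ Real.exp (((k + 1 : ℕ) : ℝ) * l) := by
          apply Real.exp_le_exp.2
          push_cast
          nlinarith only [hK0, hl0]
  have hQpow2 : (Q : ℝ) ^ (2 * (k + 1 : ℕ)) ≤ Real.exp (((k + 1 : ℕ) : ℝ) * l) := by
    have hQ1 : (1 : ℝ) ≤ Q := by exact_mod_cast h.hQ1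
    exact (pow_le_pow_right₀ hQ1 (by omega)).trans hQpow
  have hpdvd : ∀ j, ∀ p : ℕ, p.Prime → p ∣ al a j → p ∣ W := by
    intro j p hp hd
    have h1 : p ≤ w := (Nat.le_of_dvd (hα1 j) hd).trans ((hαR j).trans hRw)
    rw [h.hW]
    exact hp.dvd_primorial_iff.2 h1
  set a₁ : ℝ := 2 * l ^ c₁ * T with ha₁
  have hMB' : ∀ (C : Fin (k + 1 : ℕ) → ℤ) (S : Finset (Fin (k + 1 : ℕ))), ∑ s ∈ range T, ∏ j ∈ S, GG W Q (C j + W * (al a j * s)) ^ 2 ≤ a₁ := by
    intro C' S
    refine (hMB (k + 1 : ℕ) W Q T (al a) C' S h.hQ1 hTpos hα1 hpdvd).trans ?_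
    have h1 : Real.exp (4 ^ (k + 1 : ℕ) * (2 * ((k + 1 : ℕ) : ℝ) + 2) * ∑ p ∈ (range (Q + 1)).filter Nat.Prime, 1 / (p : ℝ)) ≤ l ^ c₁ := by
      have h2 := hPS Q hQel
      have h3 : l ^ c₁ = Real.exp (c₁ * Real.log l) := by rw [Real.exp_nat_mul, Real.exp_log hl0]
      rw [h3]
      apply Real.exp_le_exp.2
      have hlog : 0 ≤ Real.log l := Real.log_nonneg hl1
      calc 4 ^ (k + 1 : ℕ) * (2 * ((k + 1 : ℕ) : ℝ) + 2) * ∑ p ∈ (range (Q + 1)).filter Nat.Prime, 1 / (p : ℝ) ≤ 4 ^ (k + 1 : ℕ) * (2 * ((k + 1 : ℕ) : ℝ) + 2) * (C * Real.log l) :=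
            mul_le_mul_of_nonneg_left h2 (by positivity)
        _ = (4 ^ (k + 1 : ℕ) * (2 * ((k + 1 : ℕ) : ℝ) + 2) * C) * Real.log l := by ring
        _ ≤ c₁ * Real.log l := mul_le_mul_of_nonneg_right hc₁ hlog
    have h4 : 4 * (Q : ℝ) ^ (4 * (k + 1 : ℕ)) ≤ T := by
      calc 4 * (Q : ℝ) ^ (4 * (k + 1 : ℕ)) ≤ Real.exp l * Real.exp (((k + 1 : ℕ) : ℝ) * l) := by
            apply mul_le_mul (by linarith) hQpow (by positivity) (Real.exp_pos _).le
        _ = Real.exp (l + (k + 1 : ℕ) * l) := (Real.exp_add _ _).symm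
        _ ≤ Real.exp (((k + 1 : ℕ) + 2) * l) := Real.exp_le_exp.2 (by linarith)
        _ ≤ T := hTexp
    have h5 : (T : ℝ) ≤ l ^ c₁ * T := le_mul_of_one_le_left hT0.le hlc1
    have h6 := mul_le_mul_of_nonneg_right h1 hT0.le
    rw [ha₁]
    linarith
  set a' : ℝ := B₀ ^ (2 * (k + 1 : ℕ)) * a₁ with ha
  set E : ℝ := T / (B₀ ^ (2 * (k + 1 : ℕ)) * l ^ (c₁ + 4)) with hE
  have hE0 : 0 < E := by positivity
  set τ : ℝ := T / l ^ 2 with hτ
  have hτ0 : 0 < τ := by positivity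
  have hEa : E * a' = 2 * (T / l ^ 2) ^ 2 := by
    rw [hE, ha, ha₁]
    field_simp
    ring
  have hsqrt : Real.sqrt (E * a') ≤ 2 * (T / l ^ 2) := by
    rw [hEa]
    apply Real.sqrt_le_iff.2
    refine ⟨by positivity, ?_⟩
    have : 0 ≤ ((T : ℝ) / l ^ 2) ^ 2 := sq_nonneg _
    nlinarith only [this]
  set θ : ℝ := 1 / (40 * R) with hθ
  have hθ0 : 0 < θ := by positivity
  have hθT : θ * T / 16 = T / (640 * R) := by rw [hθ]; field_simp; norm_num
  have hsm : (k + 1 : ℕ) * (Real.sqrt (E * a') + τ) ≤ θ * T / 16 := by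
    have h1 : ((k + 1 : ℕ) : ℝ) * (Real.sqrt (E * a') + τ) ≤ (k + 1 : ℕ) * (2 * (T / l ^ 2) + T / l ^ 2) := by
      apply mul_le_mul_of_nonneg_left _ hK0.le
      rw [hτ]
      linarith
    refine h1.trans ?_
    have e : ((k + 1 : ℕ) : ℝ) * (2 * (T / l ^ 2) + T / l ^ 2) = (3 * (k + 1 : ℕ) * T) / l ^ 2 := by ring
    rw [e, hθT, div_le_div_iff₀ (by positivity) (by positivity)]
    have h2 : 1920 * ((k + 1 : ℕ) * (R : ℝ)) ≤ l ^ 2 := by
      have h3 : (1000 * ((k + 1 : ℕ) : ℝ)) * (2000 * R) ≤ l * l := mul_le_mul hl3 hlR (by positivity) hl0.le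
      have h4 : 0 < ((k + 1 : ℕ) : ℝ) * R := by positivity
      nlinarith only [h3, h4]
    calc 3 * (k + 1 : ℕ) * T * (640 * R) = (1920 * ((k + 1 : ℕ) * (R : ℝ))) * T := by ring
      _ ≤ l ^ 2 * T := mul_le_mul_of_nonneg_right h2 hT0.le
      _ = T * l ^ 2 := by ring
  have hδ : 2 ^ (k + 1 : ℕ) * (((k + 1 : ℕ) : ℝ) + 2) * (2 / w + (k + 1 : ℕ) ^ 2 * ε) ≤ 1 / 3 := by
    have h1 : 2 ^ (k + 1 : ℕ) * (((k + 1 : ℕ) : ℝ) + 2) * (2 / w) ≤ 1 / 6 := by
      have h2 : 12 * (2 ^ (k + 1 : ℕ) * (((k + 1 : ℕ) : ℝ) + 2)) ≤ w := by linarith [h.hw1]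
      rw [mul_div_assoc', div_le_div_iff₀ hw0 (by norm_num)]
      linarith
    rw [mul_add]
    linarith
  have hQT : 2 * (Q : ℝ) ^ (2 * (k + 1 : ℕ)) * (3 * (k + 1 : ℕ) + 2) ≤ θ * T / 16 := by
    rw [hθT, le_div_iff₀ (by positivity)]
    have h1 : 2 * (3 * ((k + 1 : ℕ) : ℝ) + 2) * (640 * R) ≤ Real.exp l := by
      have h2 := Real.add_one_le_exp (l / 2)
      have h3 : Real.exp l = Real.exp (l / 2) * Real.exp (l / 2) := by rw [← Real.exp_add]; congr 1; ring
      have h4 : (500 * ((k + 1 : ℕ) : ℝ)) * (1000 * R) ≤ Real.exp (l / 2) * Real.exp (l / 2) :=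
        mul_le_mul (by linarith) (by linarith) (by positivity) (Real.exp_pos _).le
      have h5 : (R : ℝ) ≤ (k + 1 : ℕ) * R := le_mul_of_one_le_left hR00.le hK1
      rw [h3]
      nlinarith only [h4, h5, hR00, hK0]
    calc 2 * (Q : ℝ) ^ (2 * (k + 1 : ℕ)) * (3 * (k + 1 : ℕ) + 2) * (640 * R) = (2 * (3 * ((k + 1 : ℕ) : ℝ) + 2) * (640 * R)) * (Q : ℝ) ^ (2 * (k + 1 : ℕ)) := by ring
      _ ≤ Real.exp l * Real.exp (((k + 1 : ℕ) : ℝ) * l) := mul_le_mul h1 hQpow2 (by positivity) (Real.exp_pos _).le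
      _ = Real.exp (l + (k + 1 : ℕ) * l) := (Real.exp_add _ _).symm
      _ ≤ Real.exp (((k + 1 : ℕ) + 2) * l) := Real.exp_le_exp.2 (by linarith)
      _ ≤ T := hTexp
  -- the classes
  obtain ⟨B, hBE, hBgood⟩ := cls h hTpos hE0
  have hBD : (B.card : ℝ) * l ^ (2 * (k + 1 : ℕ) + 1) ≤ W := by
    have hEt0 : 0 ≤ Et := le_trans (by positivity) hBE
    have h1 : (B.card : ℝ) * T ≤ Et * (B₀ ^ (2 * (k + 1 : ℕ)) * l ^ (c₁ + 4)) := by
      rw [hE, mul_div_assoc', div_le_iff₀ (by positivity)] at hBE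
      exact hBE
    have h2 : B₀ ^ (2 * (k + 1 : ℕ)) ≤ B₀ ^ D := pow_le_pow_right₀ h.hB1 (by omega)
    have h3 : (B.card : ℝ) * T * l ^ (2 * (k + 1 : ℕ) + 1) ≤ W * T := by
      calc (B.card : ℝ) * T * l ^ (2 * (k + 1 : ℕ) + 1) ≤ Et * (B₀ ^ (2 * (k + 1 : ℕ)) * l ^ (c₁ + 4)) * l ^ (2 * (k + 1 : ℕ) + 1) :=
            mul_le_mul_of_nonneg_right h1 (by positivity)
        _ = Et * (B₀ ^ (2 * (k + 1 : ℕ)) * l ^ D) := by
            rw [hD]
            have : l ^ (2 * (k + 1 : ℕ) + c₁ + 5) = l ^ (c₁ + 4) * l ^ (2 * (k + 1 : ℕ) + 1) := by rw [← pow_add]; congr 1; omega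
            rw [this]
            ring
        _ ≤ Et * (B₀ ^ D * l ^ D) := by
            apply mul_le_mul_of_nonneg_left _ hEt0
            exact mul_le_mul_of_nonneg_right h2 (by positivity)
        _ ≤ ((W * T : ℕ) : ℝ) := h.hEt1
        _ = W * T := by push_cast; ring
    have h4 : (B.card : ℝ) * l ^ (2 * (k + 1 : ℕ) + 1) * T ≤ W * T := by
      calc _ = (B.card : ℝ) * T * l ^ (2 * (k + 1 : ℕ) + 1) := by ring
        _ ≤ _ := h3
    exact le_of_mul_le_mul_right h4 hT0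
  have hRCB : (R : ℝ) * ((k + 1 : ℕ) : ℝ) ^ 2 * B.card * ((2 * ((k + 1 : ℕ) : ℝ)) ^ (2 * (k + 1)) * (w : ℝ) ^ (2 * (k + 1))) < W := by
    have hwl : (w : ℝ) ^ (2 * (k + 1 : ℕ)) ≤ l ^ (2 * (k + 1 : ℕ)) := pow_le_pow_left₀ hw0.le h.hw2 _
    have h1 : (R : ℝ) * (((k + 1 : ℕ) : ℝ) ^ 2 * (2 * ((k + 1 : ℕ) : ℝ)) ^ (2 * (k + 1 : ℕ))) ≤ l / 4 := by linarith
    calc (R : ℝ) * ((k + 1 : ℕ) : ℝ) ^ 2 * B.card * ((2 * ((k + 1 : ℕ) : ℝ)) ^ (2 * (k + 1 : ℕ)) * (w : ℝ) ^ (2 * (k + 1 : ℕ))) =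
          (B.card : ℝ) * ((R : ℝ) * (((k + 1 : ℕ) : ℝ) ^ 2 * (2 * ((k + 1 : ℕ) : ℝ)) ^ (2 * (k + 1 : ℕ)))) * (w : ℝ) ^ (2 * (k + 1 : ℕ)) := by ring
      _ ≤ (B.card : ℝ) * (l / 4) * l ^ (2 * (k + 1 : ℕ)) := by gcongr
      _ = (B.card : ℝ) * l ^ (2 * (k + 1 : ℕ) + 1) / 4 := by rw [pow_succ]; ring
      _ ≤ W / 4 := by linarith
      _ < W := by linarith
  have hkw : k + 1 ≤ w := by
    have h1 : ((k + 1 : ℕ) : ℝ) ≤ w := by
      have h2 : 24000 * (1 * (((k + 1 : ℕ) : ℝ) + 2)) ≤ l := by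
        refine le_trans ?_ hl5
        have h3 : (1 : ℝ) ≤ 2 ^ (k + 1) := one_le_pow₀ (by norm_num)
        have h4 : (0 : ℝ) ≤ ((k + 1 : ℕ) : ℝ) + 2 := by positivity
        nlinarith
      have h5 := h.hw1
      have h6 : (0 : ℝ) ≤ ((k + 1 : ℕ) : ℝ) := by positivity
      linarith
    exact_mod_cast h1
  have hRCx : ∀ ρ : Fin k → ℕ, ∃ b < W, ∀ x : Fin k → ℕ, AdA a b₀ x → (fun i => x i % W) = ρ → ∀ j,
      IsUnit ((a j : ZMod W) * (b : ZMod W) + (bs b₀ x j : ZMod W)) ∧ ((a j : ZMod W) * (b : ZMod W) + (bs b₀ x j : ZMod W)) ∉ B := by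
    intro ρ
    have hWw := h.hW
    subst hWw
    exact hRCA hRC k R w a b₀ B hane haR hkw hw2 hRCB ρ
  choose b hbW hb using hRCx
  -- the classes of the forms in terms of the residues of `m = W T - 1 - N` or `m = N`
  set ν : (Fin k → ℕ) → (Fin k → ℕ) := fun ρ i => if sa a i.succ then W - 1 - ρ i else ρ i with hν
  set bb : (Fin k → ℕ) → ℕ := fun ρ => b (ν ρ) with hbb
  set rr' : (Fin k → ℕ) → Fin (k + 1) → ℕ := fun ρ j => ((a j : ZMod W) * (bb ρ : ZMod W) + (bs b₀ (ν ρ) j : ZMod W)).val with hrr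
  have hbbW : ∀ ρ, bb ρ < W := fun ρ => hbW _
  have hrrW : ∀ ρ j, rr' ρ j < W := fun ρ j => ZMod.val_lt _
  have hbscast : ∀ (x : Fin k → ℕ) (ρ : Fin k → ℕ), (fun i => x i % W) = ν ρ → ∀ j, (bs b₀ x j : ZMod W) = (bs b₀ (ν ρ) j : ZMod W) := by
    intro x ρ hx j
    refine Fin.cases ?_ (fun i => ?_) j
    · rfl
    · show ((x i : ℕ) : ZMod W) = ((ν ρ i : ℕ) : ZMod W)
      rw [← congrFun hx i, ZMod.natCast_mod]
  -- the exceptional tuples
  have hexr : ∀ ρ : Fin k → ℕ, ∃ Ex : Finset (Fin (k + 1 : ℕ) → ℕ), (Ex.card : ℝ) ≤ (k + 1 : ℕ) * (2 * m₀ ^ 2 * a' / τ ^ 2) * (T : ℝ) ^ ((k + 1 : ℕ) - 1) ∧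
      ((∃ x₁ : Fin k → ℕ, AdA a b₀ x₁ ∧ (fun i => x₁ i % W) = ν ρ) → ∀ t : Fin (k + 1 : ℕ) → ℕ, (∀ j, t j < T) → (∀ j s, s < S₀ → al a j * s + t j < T) → t ∉ Ex →
        (∀ i j, i ≠ j → (al a i : ℤ) * (DA (sa a) W T (rr' ρ) j + W * t j) ≠ al a j * (DA (sa a) W T (rr' ρ) i + W * t i)) →
        (∀ i j, Sg w ((al a i : ℤ) * (DA (sa a) W T (rr' ρ) j + W * t j) - al a j * (DA (sa a) W T (rr' ρ) i + W * t i)) ≤ ε) →
        θ * T / 8 ≤ ∑ s ∈ range S₀, ∏ j, FA (sa a) W T c (rr' ρ) j (al a j * s + t j)) := by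
    intro ρ
    by_cases hρ : ∃ x₁ : Fin k → ℕ, AdA a b₀ x₁ ∧ (fun i => x₁ i % W) = ν ρ
    · obtain ⟨x₁, hx₁, hres⟩ := hρ
      have hgood := hb (ν ρ) x₁ hx₁ hres
      have hcls : ∀ x : ℕ, (∃ i, x = rr' ρ i) → x < W ∧ x.Coprime W ∧ (x : ZMod W) ∉ B := by
        rintro x ⟨j, rfl⟩
        obtain ⟨g1, g2⟩ := hgood j
        rw [hbscast x₁ ρ hres j] at g1 g2
        have e : ((rr' ρ j : ℕ) : ZMod W) = (a j : ZMod W) * (bb ρ : ZMod W) + (bs b₀ (ν ρ) j : ZMod W) := by
          rw [hrr]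
          exact ZMod.natCast_zmod_val _
        refine ⟨hrrW ρ j, ?_, ?_⟩
        · rw [← ZMod.isUnit_iff_coprime, e]
          exact g1
        · rw [e]
          exact g2
      obtain ⟨Ex, hEx1, hEx2⟩ := coreAc hTE hMD hEV hREF (sa a) (al a) h (θ := θ) (E := E) (a := a') (a₁ := a₁) (τ := τ) (ε := ε) (S₀ := S₀) hw2
        hα1 (fun j => (hαR j).trans hRw) (fun j => (Nat.mul_le_mul_right S₀ (hαR j)).trans hRS)
        (rr' ρ) (hrrW ρ) (fun x hx => hBgood x (hcls x hx).1 (hcls x hx).2.1 (hcls x hx).2.2) hMB' le_rfl hτ0 hθ0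
        (by
          have h1 : S₀ ≤ R * S₀ := Nat.le_mul_of_pos_left S₀ hR1
          omega) (by
          have h1 : (T : ℝ) ≤ 40 * R * S₀ := by exact_mod_cast hTS
          rw [hθ, one_div, ← div_eq_inv_mul, div_le_iff₀ (by positivity)]
          linarith) hKη hsm hδ hQT
      exact ⟨Ex, hEx1, fun _ => hEx2⟩
    · refine ⟨∅, ?_, fun h1 => absurd h1 hρ⟩
      rw [card_empty, Nat.cast_zero]
      have := h.hm0
      positivity
  choose Ex hEx1 hEx2 using hexr
  refine ⟨w, h.hw1, ?_⟩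
  set Z : Finset (Fin k → ℕ) := (Fintype.piFinset (fun i : Fin k => rg (sa a i.succ) X)).filter (fun N => AdA a b₀ N ∧ (GA a b₀ N R X : ℝ) < X * Real.exp (-(l / 300)) ∧
      ¬ ∃ i j : Fin (k + 1), i ≠ j ∧ (a i * bs b₀ N j = a j * bs b₀ N i ∨ ε < Sg w (a i * bs b₀ N j - a j * bs b₀ N i))) with hZ
  have hXpos : 1 ≤ X := by exact_mod_cast hX1
  set mm : (Fin k → ℕ) → Fin k → ℕ := fun N i => if sa a i.succ then W * T - 1 - N i else N i with hmm
  set Zm : Finset (Fin k → ℕ) := Z.image mm with hZm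
  have hZt : ∀ N ∈ Z, ∀ i, sa a i.succ = true → X < N i ∧ N i ≤ 2 * X := by
    intro N hN i hσ
    rw [hZ, Finset.mem_filter, Fintype.mem_piFinset] at hN
    have h1 := hN.1 i
    unfold rg at h1
    rw [hσ, if_pos rfl] at h1
    exact Finset.mem_Ioc.1 h1
  have hZf : ∀ N ∈ Z, ∀ i, sa a i.succ = false → 1 ≤ N i ∧ N i ≤ X := by
    intro N hN i hσ
    rw [hZ, Finset.mem_filter, Fintype.mem_piFinset] at hN
    have h1 := hN.1 i
    unfold rg at h1
    rw [hσ] at h1
    exact Finset.mem_Icc.1 h1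
  have hZcard : Zm.card = Z.card := by
    rw [hZm]
    apply card_image_of_injOn
    intro N hN N' hN' he
    funext i
    have h1 := congrFun he i
    simp only [hmm] at h1
    cases hσ : sa a i.succ
    · rw [hσ] at h1
      exact h1
    · rw [hσ, if_pos rfl, if_pos rfl] at h1
      have h2 := hZt N hN i hσ
      have h3 := hZt N' hN' i hσ
      omega
  have hcn := hCN k W S₀ (al a) b₀ Zm bb Ex _ hWpos (hα1 0) hEx1 (by
    intro m hm t ht
    rw [hZm, Finset.mem_image] at hm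
    obtain ⟨N, hN, rfl⟩ := hm
    have hNt := hZt N hN
    have hNf := hZf N hN
    rw [hZ, Finset.mem_filter, Fintype.mem_piFinset] at hN
    obtain ⟨-, hAd, hcnt, hsg⟩ := hN
    set ρ : Fin k → ℕ := fun i => mm N i % W with hρ
    -- bounds for the entries
    have hBt : ∀ j, sa a j = true → X < bs b₀ N j ∧ bs b₀ N j ≤ 2 * X := by
      intro j
      refine Fin.cases ?_ (fun i => ?_) j
      · intro h1
        rw [hσ0] at h1
        exact absurd h1 (by simp)
      · intro h1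
        exact hNt i h1
    have hBf : ∀ j, sa a j = false → bs b₀ N j ≤ X := by
      intro j
      refine Fin.cases ?_ (fun i => ?_) j
      · intro _
        exact hb₀
      · intro h1
        exact (hNf i h1).2
    have hbR : ∀ j, al a j * bb ρ ≤ R * W := fun j => Nat.mul_le_mul (hαR j) (hbbW ρ).le
    have hRWX : R * W * 100 ≤ X := by
      have : R * W * 100 = W * (100 * R) := by ring
      omega
    -- the residues
    have hbX : ∀ j, sa a j = true → al a j * bb ρ ≤ bs b₀ N j := by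
      intro j hσ
      have h1 := hbR j
      have h2 := (hBt j hσ).1
      omega
    have hνN : (fun i => N i % W) = ν ρ := by
      funext i
      show N i % W = if sa a i.succ then W - 1 - mm N i % W else mm N i % W
      cases hσ : sa a i.succ
      · have h1 : mm N i = N i := by simp [hmm, hσ]
        rw [h1]
        rfl
      · have h1 : mm N i = W * T - 1 - N i := by simp [hmm, hσ]
        have h6 := arithB (T := T) (N := N i) hWpos (by have := (hNt i hσ).2; omega)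
        have h2 := Nat.mod_lt (N i) hWpos
        rw [h1, if_pos rfl, h6]
        omega
    have hrr2 : ∀ j, sa a j = true → rr' ρ j = (bs b₀ N j - al a j * bb ρ) % W := by
      intro j hσ
      show ((a j : ZMod W) * (bb ρ : ZMod W) + (bs b₀ (ν ρ) j : ZMod W)).val = _
      rw [← hbscast N ρ hνN j, ← ZMod.val_natCast, Nat.cast_sub (hbX j hσ)]
      congr 1
      have h1 : (a j : ZMod W) = -((al a j : ℕ) : ZMod W) := by
        have h2 := sa_true hσ
        rw [h2]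
        push_cast
        rfl
      rw [h1]
      push_cast
      ring
    have hrr3 : ∀ j, sa a j = false → rr' ρ j = (al a j * bb ρ + bs b₀ N j) % W := by
      intro j hσ
      show ((a j : ZMod W) * (bb ρ : ZMod W) + (bs b₀ (ν ρ) j : ZMod W)).val = _
      rw [← hbscast N ρ hνN j, ← ZMod.val_natCast]
      congr 1
      have h1 : (a j : ZMod W) = ((al a j : ℕ) : ZMod W) := by
        have h2 := sa_false hσ
        rw [h2]
        push_cast
        rfl
      rw [h1]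
      push_cast
      ring
    set u : Fin (k + 1) → ℕ := fun j => (bs b₀ N j - al a j * bb ρ) / W with hu
    have hNu : ∀ j, sa a j = true → bs b₀ N j = al a j * bb ρ + rr' ρ j + W * u j := by
      intro j hσ
      have h1 := Nat.div_add_mod (bs b₀ N j - al a j * bb ρ) W
      have h2 := hbX j hσ
      rw [hrr2 j hσ]
      show bs b₀ N j = al a j * bb ρ + (bs b₀ N j - al a j * bb ρ) % W + W * ((bs b₀ N j - al a j * bb ρ) / W)
      omega
    have har := fun j (hσ : sa a j = true) => arithA (T := T) (hrrW ρ j) (hNu j hσ) (by have := (hBt j hσ).2; omega)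
    set v : Fin (k + 1) → ℕ := fun j => (al a j * bb ρ + bs b₀ N j) / W with hv
    have hNv : ∀ j, sa a j = false → al a j * bb ρ + bs b₀ N j = rr' ρ j + W * v j := by
      intro j hσ
      have h1 := Nat.div_add_mod (al a j * bb ρ + bs b₀ N j) W
      rw [hrr3 j hσ]
      show al a j * bb ρ + bs b₀ N j = (al a j * bb ρ + bs b₀ N j) % W + W * ((al a j * bb ρ + bs b₀ N j) / W)
      omega
    set tt : Fin (k + 1) → ℕ := fun j => al a j * t + (al a j * bb ρ + bs b₀ (mm N) j) / W with htt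
    have htti : ∀ j, sa a j = true → tt j = al a j * t + (T - 1 - u j) := by
      intro j hσ
      show al a j * t + (al a j * bb ρ + bs b₀ (mm N) j) / W = _
      have h1 : bs b₀ (mm N) j = W * T - 1 - bs b₀ N j := by
        revert hσ
        refine Fin.cases ?_ (fun i => ?_) j
        · intro h1
          rw [hσ0] at h1
          exact absurd h1 (by simp)
        · intro hσ
          show mm N i = W * T - 1 - N i
          simp [hmm, hσ]
      rw [h1, (har j hσ).2]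
    have httf : ∀ j, sa a j = false → tt j = al a j * t + v j := by
      intro j hσ
      show al a j * t + (al a j * bb ρ + bs b₀ (mm N) j) / W = _
      have h1 : bs b₀ (mm N) j = bs b₀ N j := by
        revert hσ
        refine Fin.cases ?_ (fun i => ?_) j
        · intro _
          rfl
        · intro hσ
          show mm N i = N i
          simp [hmm, hσ]
      rw [h1]
    -- the size of `n`
    have hn : ∀ s, s < S₀ → (bb ρ + W * (s + t)) * (2 * R) ≤ X := by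
      intro s hs
      have h1 : s + t + 1 ≤ 2 * S₀ := by omega
      have h2 : W * (s + t + 1) ≤ W * (2 * S₀) := Nat.mul_le_mul_left W h1
      have h3 := hbbW ρ
      have h4 : bb ρ + W * (s + t) ≤ W * (2 * S₀) := by
        rw [Nat.mul_add, Nat.mul_one] at h2
        omega
      have h5 : W * (2 * S₀) * (2 * R) * 2 = W * (S₀ * (8 * R)) := by ring
      have h6 : W * (S₀ * (8 * R)) ≤ W * q := Nat.mul_le_mul_left W hS8
      have h7 := Nat.mul_le_mul_right (2 * R) h4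
      omega
    have hαn : ∀ j s, s < S₀ → 2 * (al a j * (bb ρ + W * (s + t))) ≤ X := by
      intro j s hs
      have h1 := hn s hs
      have h2 : al a j * (bb ρ + W * (s + t)) ≤ R * (bb ρ + W * (s + t)) := Nat.mul_le_mul_right _ (hαR j)
      have h3 : (bb ρ + W * (s + t)) * (2 * R) = 2 * (R * (bb ρ + W * (s + t))) := by ring
      omega
    have hC : ∀ j, DA (sa a) W T (rr' ρ) j + W * tt j = al a j * ((bb ρ : ℤ) + W * t) + (if sa a j then -(bs b₀ N j : ℤ) else (bs b₀ N j : ℤ)) := by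
      intro j
      cases hσ : sa a j
      · rw [httf j hσ, DA_false hσ]
        have h3 : ((al a j : ℤ) * bb ρ + bs b₀ N j) = rr' ρ j + W * v j := by exact_mod_cast hNv j hσ
        simp only [Bool.false_eq_true, if_false]
        push_cast
        linarith
      · rw [htti j hσ, DA_true hσ]
        have h1 : ((T - 1 - u j : ℕ) : ℤ) = (T : ℤ) - 1 - u j := by
          have := (har j hσ).1
          omega
        have h3 : ((bs b₀ N j : ℕ) : ℤ) = al a j * bb ρ + rr' ρ j + W * u j := by exact_mod_cast hNu j hσ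
        simp only [if_true]
        rw [h3]
        push_cast [h1]
        ring
    -- the differences
    have hdif : ∀ i j, (al a i : ℤ) * (DA (sa a) W T (rr' ρ) j + W * tt j) - al a j * (DA (sa a) W T (rr' ρ) i + W * tt i) =
        a i * bs b₀ N j - a j * bs b₀ N i ∨
        (al a i : ℤ) * (DA (sa a) W T (rr' ρ) j + W * tt j) - al a j * (DA (sa a) W T (rr' ρ) i + W * tt i) =
        -(a i * bs b₀ N j - a j * bs b₀ N i) := by
      intro i j
      rw [hC i, hC j]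
      cases hσi : sa a i <;> cases hσj : sa a j
      · left
        rw [sa_false hσi, sa_false hσj]
        simp only [Bool.false_eq_true, if_false]
        ring
      · right
        rw [sa_false hσi, sa_true hσj]
        simp only [Bool.false_eq_true, if_false, if_true]
        ring
      · right
        rw [sa_true hσi, sa_false hσj]
        simp only [Bool.false_eq_true, if_false, if_true]
        ring
      · left
        rw [sa_true hσi, sa_true hσj]
        simp only [if_true]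
        ring
    have hSgneg : ∀ z : ℤ, Sg w (-z) = Sg w z := by
      intro z
      unfold Sg
      rw [Int.natAbs_neg]
    have hlt : ∀ j s, s < S₀ → al a j * s + tt j < T := by
      intro j s hs
      have h1 := hαn j s hs
      have e : al a j * (bb ρ + W * (s + t)) = al a j * bb ρ + W * (al a j * s) + W * (al a j * t) := by ring
      rw [e] at h1
      by_contra hcon
      have h2 : W * T ≤ W * (al a j * s + tt j) := Nat.mul_le_mul_left W (not_lt.1 hcon)
      cases hσ : sa a j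
      · have h3 := hNv j hσ
        have h4 := hBf j hσ
        rw [httf j hσ, Nat.mul_add, Nat.mul_add] at h2
        omega
      · have h3 := hNu j hσ
        have h4 := (hBt j hσ).1
        have h5 := (har j hσ).1
        have h6 : W * T = W * (T - 1 - u j) + W * u j + W := by
          obtain ⟨d, hd⟩ : ∃ d, T = d + 1 + u j := ⟨T - 1 - u j, by omega⟩
          have : T - 1 - u j = d := by omega
          rw [this, hd]
          ring
        have h7 := hrrW ρ j
        rw [htti j hσ, Nat.mul_add, Nat.mul_add] at h2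
        omega
    by_contra hcon
    have hT100 := hEx2 ρ ⟨N, hAd, hνN⟩ tt (by
        intro j
        have := hlt j 0 (by omega)
        omega) hlt hcon (by
        intro i j hne hij
        apply hsg
        refine ⟨i, j, hne, Or.inl ?_⟩
        have h1 := hdif i j
        rw [hij, sub_self] at h1
        rcases h1 with h1 | h1
        · linarith
        · linarith) (by
        intro i j
        have h0 : Sg w ((al a i : ℤ) * (DA (sa a) W T (rr' ρ) j + W * tt j) - al a j * (DA (sa a) W T (rr' ρ) i + W * tt i)) =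
            Sg w (a i * bs b₀ N j - a j * bs b₀ N i) := by
          rcases hdif i j with h1 | h1
          · rw [h1]
          · rw [h1, hSgneg]
        rw [h0]
        by_cases hij : i = j
        · subst hij
          rw [sub_self]
          unfold Sg
          simpa using hε0
        · by_contra hcon2
          push Not at hcon2
          exact hsg ⟨i, j, hij, Or.inr hcon2⟩)
    have hlow := count_lowerA (k := k) (W := W) (T := T) (S₀ := S₀) (R := R) (X := X) (b := bb ρ) (t := t) (a := a) hWpos h.hc0 h.hcB h.hcp h.hB1 b₀ N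
      (rr' ρ) tt (by
        intro j s hσ hs
        rw [htti j hσ] at hs ⊢
        have h1 := (har j hσ).1
        have h3 : ((T - 1 - (al a j * s + (al a j * t + (T - 1 - u j))) : ℕ) : ℤ) = (u j : ℤ) - (al a j * s + al a j * t) := by
          have h4 : T - 1 - (al a j * s + (al a j * t + (T - 1 - u j))) = u j - (al a j * s + al a j * t) := by omega
          have h5 : al a j * s + al a j * t ≤ u j := by omega
          rw [h4, Nat.cast_sub h5]
          push_cast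
          ring
        have h5 : ((bs b₀ N j : ℕ) : ℤ) = al a j * bb ρ + rr' ρ j + W * u j := by exact_mod_cast hNu j hσ
        rw [h5, sa_true hσ, Nat.cast_add, Nat.cast_mul, h3]
        push_cast
        ring) (by
        intro j s hσ
        rw [httf j hσ]
        have h5 : ((al a j : ℤ) * bb ρ + bs b₀ N j) = rr' ρ j + W * v j := by exact_mod_cast hNv j hσ
        rw [sa_false hσ]
        push_cast
        linarith) (by
        intro s hs
        rw [Nat.le_div_iff_mul_le (by omega)]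
        exact hn s hs)
    have h1 : θ * T / 8 ≤ B₀ ^ (k + 1) * GA a b₀ N R X := hT100.trans hlow
    have h2 : B₀ ^ (k + 1) ≤ Real.exp (l / 1000) := (pow_le_pow_right₀ h.hB1 (by omega)).trans h.hBD
    have h3 : B₀ ^ (k + 1) * (GA a b₀ N R X : ℝ) ≤ Real.exp (l / 1000) * (X * Real.exp (-(l / 300))) := by
      apply mul_le_mul h2 hcnt.le (Nat.cast_nonneg _) (Real.exp_pos _).le
    have h1' : (T : ℝ) ≤ 320 * R * (Real.exp (l / 1000) * (X * Real.exp (-(l / 300)))) := by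
      have e : θ * T / 8 = T / (320 * R) := by rw [hθ]; field_simp; norm_num
      rw [e] at h1
      have h9 := h1.trans h3
      rw [div_le_iff₀ (by positivity)] at h9
      linarith
    have h4 : 3 * (X : ℝ) * Real.exp (-(l / 700)) ≤ 320 * R * (Real.exp (l / 1000) * (X * Real.exp (-(l / 300)))) := by linarith
    have h5 : Real.exp (l / 1000) * (X * Real.exp (-(l / 300))) = X * Real.exp (-(l / 700)) * Real.exp (l / 1000 + -(l / 300) + l / 700) := by
      rw [Real.exp_add, Real.exp_add]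
      have : Real.exp (-(l / 700)) * Real.exp (l / 700) = 1 := by rw [← Real.exp_add]; simp
      calc Real.exp (l / 1000) * (X * Real.exp (-(l / 300))) = Real.exp (l / 1000) * (X * Real.exp (-(l / 300))) * (Real.exp (-(l / 700)) * Real.exp (l / 700)) := by
            rw [this, mul_one]
        _ = _ := by ring
    rw [h5] at h4
    have h6 : R * Real.exp (l / 1000 + -(l / 300) + l / 700) ≤ 1 / 1000 := by
      have h7 : l / 1000 + -(l / 300) + l / 700 ≤ -(l / 2000) := by linarith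
      have h8 : Real.exp (l / 1000 + -(l / 300) + l / 700) ≤ Real.exp (-(l / 2000)) := Real.exp_le_exp.2 h7
      have h9 : (R : ℝ) * Real.exp (-(l / 2000)) ≤ 1 / 1000 := by
        rw [Real.exp_neg, ← div_eq_mul_inv, div_le_div_iff₀ (Real.exp_pos _) (by norm_num)]
        linarith
      exact (mul_le_mul_of_nonneg_left h8 hR00.le).trans h9
    have h7 : 0 < (X : ℝ) * Real.exp (-(l / 700)) := by positivity
    have h8 : (X : ℝ) * Real.exp (-(l / 700)) * (R * Real.exp (l / 1000 + -(l / 300) + l / 700)) ≤ X * Real.exp (-(l / 700)) * (1 / 1000) :=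
      mul_le_mul_of_nonneg_left h6 h7.le
    have h9 : 320 * (R : ℝ) * (X * Real.exp (-(l / 700)) * Real.exp (l / 1000 + -(l / 300) + l / 700)) =
      320 * ((X : ℝ) * Real.exp (-(l / 700)) * (R * Real.exp (l / 1000 + -(l / 300) + l / 700))) := by ring
    rw [h9] at h4
    linarith)
  -- the number of exceptional vectors
  have hM : (k + 1 : ℕ) * (2 * m₀ ^ 2 * a' / τ ^ 2) * (T : ℝ) ^ ((k + 1 : ℕ) - 1) ≤ (T : ℝ) ^ k * T * Real.exp (-(l / 200)) := by
    have hKk : (k + 1 : ℕ) - 1 = k := by omega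
    rw [hKk]
    have h1 : m₀ ^ 2 ≤ (T * Real.exp (-(l / 200))) ^ 2 := pow_le_pow_left₀ h.hm0 h.hm1 2
    have h2 : B₀ ^ (2 * (k + 1 : ℕ)) ≤ Real.exp (l / 1000) := (pow_le_pow_right₀ h.hB1 (by omega)).trans h.hBD
    have e : ((k + 1 : ℕ) : ℝ) * (2 * m₀ ^ 2 * a' / τ ^ 2) = m₀ ^ 2 * B₀ ^ (2 * (k + 1 : ℕ)) * (4 * (k + 1 : ℕ) * l ^ (c₁ + 4)) / T := by
      rw [ha, ha₁, hτ]
      field_simp
      ring
    rw [e]
    have h3 : m₀ ^ 2 * B₀ ^ (2 * (k + 1 : ℕ)) * (4 * (k + 1 : ℕ) * l ^ (c₁ + 4)) ≤ (T * Real.exp (-(l / 200))) ^ 2 * Real.exp (l / 1000) * Real.exp (l / 250) := by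
      gcongr
    have h4 : ((T : ℝ) * Real.exp (-(l / 200))) ^ 2 * Real.exp (l / 1000) * Real.exp (l / 250) = T * (T * Real.exp (-(l / 200))) := by
      have h5 : Real.exp (-(l / 200)) * Real.exp (l / 1000) * Real.exp (l / 250) = 1 := by
        rw [← Real.exp_add, ← Real.exp_add]
        have : -(l / 200) + l / 1000 + l / 250 = 0 := by ring
        rw [this, Real.exp_zero]
      calc ((T : ℝ) * Real.exp (-(l / 200))) ^ 2 * Real.exp (l / 1000) * Real.exp (l / 250) =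
            T * (T * Real.exp (-(l / 200))) * (Real.exp (-(l / 200)) * Real.exp (l / 1000) * Real.exp (l / 250)) := by ring
        _ = _ := by rw [h5, mul_one]
    rw [h4] at h3
    have h6 : m₀ ^ 2 * B₀ ^ (2 * (k + 1 : ℕ)) * (4 * (k + 1 : ℕ) * l ^ (c₁ + 4)) / T ≤ T * Real.exp (-(l / 200)) := by
      rw [div_le_iff₀ hT0]
      linarith
    calc m₀ ^ 2 * B₀ ^ (2 * (k + 1 : ℕ)) * (4 * (k + 1 : ℕ) * l ^ (c₁ + 4)) / T * (T : ℝ) ^ k ≤ T * Real.exp (-(l / 200)) * (T : ℝ) ^ k :=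
          mul_le_mul_of_nonneg_right h6 (by positivity)
      _ = _ := by ring
  rw [hZcard] at hcn
  have hTSr : (T : ℝ) ≤ 40 * R * S₀ := by exact_mod_cast hTS
  have hfin : (Z.card : ℝ) * T ≤ 40 * R * ((W : ℝ) ^ k * ((T : ℝ) ^ k * T * Real.exp (-(l / 200)))) := by
    calc (Z.card : ℝ) * T ≤ Z.card * (40 * R * S₀) := mul_le_mul_of_nonneg_left hTSr (Nat.cast_nonneg _)
      _ = 40 * R * (Z.card * S₀) := by ring
      _ ≤ 40 * R * ((W : ℝ) ^ k * ((k + 1 : ℕ) * (2 * m₀ ^ 2 * a' / τ ^ 2) * (T : ℝ) ^ ((k + 1 : ℕ) - 1))) := mul_le_mul_of_nonneg_left hcn (by positivity)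
      _ ≤ _ := mul_le_mul_of_nonneg_left (mul_le_mul_of_nonneg_left hM (by positivity)) (by positivity)
  have hfin2 : (Z.card : ℝ) ≤ 40 * R * ((W * T) ^ k * Real.exp (-(l / 200))) := by
    have h1 : (Z.card : ℝ) * T ≤ 40 * R * ((W * T) ^ k * Real.exp (-(l / 200))) * T := by
      rw [mul_pow]
      linarith
    exact le_of_mul_le_mul_right h1 hT0
  refine hfin2.trans ?_
  have h1 : ((W : ℝ) * T) ^ k ≤ (5 * X) ^ k := pow_le_pow_left₀ (by positivity) (by linarith) k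
  have h2 : (5 * (X : ℝ)) ^ k = 5 ^ k * (X : ℝ) ^ k := mul_pow _ _ _
  rw [h2] at h1
  calc 40 * R * (((W : ℝ) * T) ^ k * Real.exp (-(l / 200))) ≤ 40 * R * ((5 ^ k * (X : ℝ) ^ k) * Real.exp (-(l / 200))) :=
        mul_le_mul_of_nonneg_left (mul_le_mul_of_nonneg_right h1 (Real.exp_pos _).le) (by positivity)
    _ = _ := by ring

end Pool.Agent.J4H81.DK
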