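import Pool.Agent.J4H81.DK.Fin
import Pool.Agent.J4H17.DK.Mba
import Pool.Agent.J4H17.DK.Cna
import Pool.Agent.J4H17.DK.Cra
import Pool.Agent.J4H17.DK.Bda
import Pool.Agent.J4H19.DK.Te
import Pool.Agent.J4H19.DK.Mda
import Pool.Agent.J4H28.DK.Rca
import Pool.Agent.J4H32.MV.MainGY

/-!
# Project DK: Dickson's conjecture for all but few constant terms (helper81, with helpers 6, 17, 18, 19, 28, 32, 42, 45, 57, 68, 98)
-/

set_option autoImplicit false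

namespace Pool.Agent.J4H81.DK

open Finset MeasureTheory Filter
open Pool.Agent.J4H81.PT Pool.Agent.J4H32.MV Pool.Agent.J4H81.GB

open Classical in
/-- fixed nonzero `a_0 > 0, a_1, ..., a_k`; for every large `X` and every `b_0 ≤ X`, for all but few locally possible vectors
`(b_1, ..., b_k)` there are many `n` with all the `a_j n + b_j` prime -/
theorem mainA (k R : ℕ) (a : Fin (k + 1) → ℤ) (ha0 : 0 < a 0) (hane : ∀ j, a j ≠ 0) (haR : ∀ j, |a j| ≤ R) (hR1 : 1 ≤ R) :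
    ∀ᶠ X : ℕ in atTop, ∀ b₀ ≤ X,
      (((Fintype.piFinset (fun i : Fin k => rg (sa a i.succ) X)).filter (fun m => AdA a b₀ m ∧
        (GA a b₀ m R X : ℝ) < 2 * (X * Real.exp (-(Real.log X / Real.log (Real.log X) ^ 4))))).card : ℝ) ≤
        (X : ℝ) ^ k * Real.exp (-(2 * (Real.log X / Real.log (Real.log X) ^ 13))) :=
  fin3A (Pool.Agent.J4H19.DK.t_TEA Pool.Agent.J4H19.MV.t_FR)
    (Pool.Agent.J4H19.DK.t_MDA Pool.Agent.J4H17.DK.t_CRA u_MC Pool.Agent.J4H45.MV.t_LM)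
    Pool.Agent.J4H98.GB.t_EV Pool.Agent.J4H17.GB.t_REF u_RC Pool.Agent.J4H28.DK.t_RCA
    (Pool.Agent.J4H17.DK.t_MBA Pool.Agent.J4H17.DK.t_CRA u_MB) Pool.Agent.J4H17.DK.t_CNA Pool.Agent.J4H68.MV.t_PS
    Pool.Agent.J4H68.MV.t_RK Pool.Agent.J4H17.DK.t_BDA u_CH k R a ha0 hane haR hR1

end Pool.Agent.J4H81.DK
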