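import Pool.Agent.J4H81.GB.Stm2

/-!
# Project DK: Dickson's conjecture for all but few constant terms (helper81), exact statements

Fixed nonzero integers `a_0 > 0, a_1, ..., a_k` and `b_0 ≥ 0`; for every large `X`, for all but `X ^ (k - o (1))` admissible vectors
`(b_1, ..., b_k)` there are `X ^ (1 - o (1))` integers `n` such that all the `a_j n + b_j` are primes. Project GX is `a_j = ± 1`.
-/

set_option autoImplicit false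

namespace Pool.Agent.J4H81.DK

open Finset MeasureTheory Filter
open Pool.Agent.J4H81.PT Pool.Agent.J4H32.MV Pool.Agent.J4H81.GB

open Classical in
/-- (TEA) telescoping with multipliers: `S_TE` (proof in J4H19/MV/Te.lean) with `F j (α j * s + t j)`. For the free shift use `S_FR` with
`G' x = G (x / α i)` if `α i ∣ x` and `x / α i < S₀`, and `0` otherwise (`α i * S₀ ≤ T`) -/
def S_TEA : Prop := ∀ (K T S₀ : ℕ) (α : Fin K → ℕ) (F g : Fin K → ℕ → ℝ) (A : Set ℝ) (E m a τ : ℝ), MeasurableSet A →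
  (∀ j, 1 ≤ α j) → (∀ j, α j * S₀ ≤ T) →
  (∀ j s, T ≤ s → F j s = 0) → (∀ j s, T ≤ s → g j s = 0) → 0 ≤ m → 0 < τ →
  (∀ j, ∫ x in (0 : ℝ)..1, A.indicator (fun x => ‖hat (cx (fun s => F j s - g j s)) T x‖ ^ 2) x ≤ E) →
  (∀ j, ∀ x : ℝ, 0 ≤ x → x ≤ 1 → x ∉ A → ‖hat (cx (fun s => F j s - g j s)) T x‖ ≤ m) →
  (∀ (i : Fin K) (t : Fin K → ℕ), ∑ s ∈ range S₀,
    ((∏ j ∈ univ.filter (fun j => j < i), g j (α j * s + t j)) * ∏ j ∈ univ.filter (fun j => i < j), F j (α j * s + t j)) ^ 2 ≤ a) →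
  (((Fintype.piFinset (fun _ : Fin K => range T)).filter (fun t =>
    K * (Real.sqrt (E * a) + τ) < |∑ s ∈ range S₀, (∏ j, F j (α j * s + t j) - ∏ j, g j (α j * s + t j))|)).card : ℝ) ≤
      K * (2 * m ^ 2 * a / τ ^ 2) * (T : ℝ) ^ (K - 1)

/-- (CRA) `GG W Q n` depends only on which primes `p ≤ Q` not dividing `W` divide `n`, so a multiplier `α` whose prime factors all divide `W`
can be removed: `C' = C / α` modulo the product of these primes (see `S_EV`, `GG_period` in J4H98/GB/Ev.lean) -/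
def S_CRA : Prop := ∀ (W Q α : ℕ) (C : ℤ), 1 ≤ α → (∀ p : ℕ, p.Prime → p ∣ α → p ∣ W) →
  ∃ C' : ℕ, (∀ s : ℕ, GG W Q (C + W * (α * s)) = GG W Q ((C' + W * s : ℕ) : ℤ)) ∧
    ∀ p : ℕ, p.Prime → p ≤ Q → ¬ p ∣ W → (p : ℤ) ∣ (α : ℤ) * C' - C

/-- (MDA) correlations of the model with multipliers, from `S_MC`, `S_LM` applied to the `C'` of `S_CRA`, as `t_MD` (J4H57/MV/Md.lean):
for `p ≤ Q`, `p ∤ W` (so `p > w ≥ α j`): `p ∣ C'_i - C'_j` iff `p ∣ α_i C_j - α_j C_i` -/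
def S_MDA : Prop := ∀ (W Q J T w : ℕ) (α : Fin J → ℕ) (C : Fin J → ℤ) (V : ℕ → ℝ), 1 ≤ Q → 2 ≤ w → (∀ p : ℕ, p.Prime → p ≤ w → p ∣ W) →
  (∀ j, 1 ≤ α j) → (∀ j, α j ≤ w) → V T = 0 → (∀ s, 0 ≤ V s) → (∀ i j, i ≠ j → (α i : ℤ) * C j ≠ α j * C i) →
  |∑ s ∈ range T, V s * ∏ j, GG W Q (C j + W * (α j * s)) - ∑ s ∈ range T, V s| ≤
    (Real.exp (2 ^ J * ((J : ℝ) + 2) * (2 / w + ∑ i : Fin J, ∑ j : Fin J, Sg w ((α i : ℤ) * C j - α j * C i))) - 1) * ∑ s ∈ range T, V s +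
      2 * (Q : ℝ) ^ (2 * J) * TV V T

def S_MDA' : Prop := S_CRA → S_MC → S_LM → S_MDA

/-- (MBA) from `S_MB` and `S_CRA` -/
def S_MBA : Prop := ∀ (K W Q T : ℕ) (α : Fin K → ℕ) (C : Fin K → ℤ) (S : Finset (Fin K)), 1 ≤ Q → 1 ≤ T → (∀ j, 1 ≤ α j) →
  (∀ j, ∀ p : ℕ, p.Prime → p ∣ α j → p ∣ W) →
  ∑ s ∈ range T, ∏ j ∈ S, GG W Q (C j + W * (α j * s)) ^ 2 ≤
    Real.exp (4 ^ K * (2 * (K : ℝ) + 2) * ∑ p ∈ (range (Q + 1)).filter Nat.Prime, 1 / (p : ℝ)) * T + 4 * (Q : ℝ) ^ (4 * K)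

def S_MBA' : Prop := S_CRA → S_MB → S_MBA

/-- the constant terms `b_0, x_1, ..., x_k` -/
def bs {k : ℕ} (b₀ : ℕ) (x : Fin k → ℕ) : Fin (k + 1) → ℕ := Fin.cons b₀ x

open Classical in
/-- (BDA) as `S_BD`, `S_BDX` (J4H18/GB/Bdx.lean): for a pair `i ≠ j` fix all entries but one; `a_i b_j - a_j b_i` is injective in it and at most
`2 R X` in modulus (`S_RK` for `2 R X`, two signs) -/
def S_BDA : Prop := S_RK → ∀ (k R w X : ℕ) (a : Fin (k + 1) → ℤ) (b₀ : ℕ) (ε : ℝ), 1 ≤ w → 1 ≤ X → (∀ j, a j ≠ 0) → (∀ j, |a j| ≤ R) → b₀ ≤ X →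
  (((Fintype.piFinset (fun _ : Fin k => Icc 1 X)).filter (fun x => ∃ i j : Fin (k + 1), i ≠ j ∧
    (a i * bs b₀ x j = a j * bs b₀ x i ∨ ε < Sg w (a i * bs b₀ x j - a j * bs b₀ x i)))).card : ℝ) ≤
    ((k : ℝ) + 1) ^ 2 * ((X : ℝ) ^ k / X + 32 * R * (X : ℝ) ^ k * Real.exp (-(ε * w)))

/-- no local obstruction for the forms `a_j n + b_j` -/
def AdA {k : ℕ} (a : Fin (k + 1) → ℤ) (b₀ : ℕ) (x : Fin k → ℕ) : Prop := ∀ p : ℕ, p.Prime → ∃ r : ℕ, ∀ j, ¬ (p : ℤ) ∣ a j * r + bs b₀ x j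

/-- (RCA) the choice of the class, from `S_RC` (compare J4H57/GB/Rcx.lean). Take one `x₁` with the residues `ρ`, `r_p` a good residue of it
modulo `p`, and by the Chinese remainder theorem `c_j ≡ b_j / a_j` modulo the `p ≤ w` not dividing `a_j` and `c_j ≡ 1 - r_p` modulo the others:
if `b + c_j` is prime to `W` so is `a_j b + b_j` (`p ∣ a_j`: `p ∤ b_j`). Every value of `a_j b + b_j` modulo `W` is taken at most `|a_j| ≤ R` times. -/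
def S_RCA : Prop := S_RC → ∀ (k R w : ℕ) (a : Fin (k + 1) → ℤ) (b₀ : ℕ) (B : Finset (ZMod (primorial w))), (∀ j, a j ≠ 0) → (∀ j, |a j| ≤ R) →
  k + 1 ≤ w → 2 ≤ w →
  (R : ℝ) * ((k + 1 : ℕ) : ℝ) ^ 2 * B.card * ((2 * ((k + 1 : ℕ) : ℝ)) ^ (2 * (k + 1)) * (w : ℝ) ^ (2 * (k + 1))) < primorial w → ∀ ρ : Fin k → ℕ,
  ∃ b < primorial w, ∀ x : Fin k → ℕ, AdA a b₀ x → (fun i => x i % primorial w) = ρ → ∀ j,
    IsUnit ((a j : ZMod (primorial w)) * (b : ZMod (primorial w)) + (bs b₀ x j : ZMod (primorial w))) ∧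
    ((a j : ZMod (primorial w)) * (b : ZMod (primorial w)) + (bs b₀ x j : ZMod (primorial w))) ∉ B

/-- (CNA) as `S_CN` (J4H6/MV/Cn.lean): given the residues, `t` is determined by the entry `j = 0`, and then `m` by the others -/
def S_CNA : Prop := ∀ (k W Y : ℕ) (α : Fin (k + 1) → ℕ) (b₀ : ℕ) (Z : Finset (Fin k → ℕ)) (b : (Fin k → ℕ) → ℕ)
  (Ex : (Fin k → ℕ) → Finset (Fin (k + 1) → ℕ)) (M : ℝ),
  1 ≤ W → 1 ≤ α 0 → (∀ ρ, ((Ex ρ).card : ℝ) ≤ M) →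
  (∀ m ∈ Z, ∀ t < Y, (fun j => α j * t + (α j * b (fun i => m i % W) + bs b₀ m j) / W) ∈ Ex (fun i => m i % W)) →
  (Z.card : ℝ) * Y ≤ (W : ℝ) ^ k * M

end Pool.Agent.J4H81.DK
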